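import Mathlib

/-!
Finite complete rewriting systems: a criterion with an interpretation in the natural numbers, and
extensions by cyclic groups.
-/

set_option autoImplicit false

namespace Pool.Agent.Helper2CR

/-- one rewriting step with the rules `R` -/
def Step {A : Type} (R : Set (List A × List A)) (u v : List A) : Prop :=
  ∃ p l r q : List A, (l, r) ∈ R ∧ u = p ++ l ++ q ∧ v = p ++ r ++ q

/-- the group `H` has a (finite) complete rewriting system: there are a finite alphabet `A` and a
finite set `R` of rules such that there is no infinite chain of rewritings, the rewriting relation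
is confluent, and the monoid presented by `A` and `R` is isomorphic to `H` -/
def HasCRS (H : Type) [Group H] : Prop :=
  ∃ (A : Type) (R : Set (List A × List A)), Finite A ∧ R.Finite ∧
    (¬ ∃ w : ℕ → List A, ∀ n, Step R (w n) (w (n + 1))) ∧
    (∀ u v w, Relation.ReflTransGen (Step R) u v → Relation.ReflTransGen (Step R) u w →
      ∃ z, Relation.ReflTransGen (Step R) v z ∧ Relation.ReflTransGen (Step R) w z) ∧
    Nonempty (PresentedMonoid (fun u v : FreeMonoid A => (u.toList, v.toList) ∈ R) ≃* H)

/-- the value of a word -/
def val {A G : Type} [Group G] (π : A → G) (u : List A) : G := (u.map π).prod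

section val
variable {A G : Type} [Group G] (π : A → G)

theorem val_nil : val π [] = 1 := rfl
theorem val_cons (a : A) (u : List A) : val π (a :: u) = π a * val π u := by
  simp [val]
theorem val_append (u v : List A) : val π (u ++ v) = val π u * val π v := by
  simp [val]
theorem val_one (a : A) : val π [a] = π a := by simp [val]

end val

/-- no factor of the word is the left side of a rule -/
def Irr {A : Type} (R : Set (List A × List A)) (u : List A) : Prop :=
  ∀ p l r q : List A, (l, r) ∈ R → u ≠ p ++ l ++ q

/-- the subgroup `K` has a complete rewriting system which is compatible with strictly monotone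
functions on the natural numbers -/
def Good {G : Type} [Group G] (K : Subgroup G) : Prop :=
  ∃ (A : Type) (R : Set (List A × List A)) (π : A → G) (f : A → ℕ → ℕ),
    Finite A ∧ R.Finite ∧ (∀ a, StrictMono (f a)) ∧ (∀ a x, x < f a x) ∧
    (∀ p ∈ R, val π p.1 = val π p.2 ∧ ∀ x, p.2.foldr f x < p.1.foldr f x) ∧
    (∀ u v, Irr R u → Irr R v → val π u = val π v → u = v) ∧
    (∀ g, g ∈ K ↔ ∃ u, val π u = g)

section
variable {A : Type} {f : A → ℕ → ℕ}

theorem foldr_mono (hf : ∀ a, StrictMono (f a)) (u : List A) : StrictMono fun x => u.foldr f x := by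
  induction u with
  | nil => exact strictMono_id
  | cons a u ih =>
    intro x y h
    simp only [List.foldr_cons]
    exact hf a (ih h)

theorem foldr_le (hx : ∀ a x, x < f a x) (u : List A) (x : ℕ) : x ≤ u.foldr f x := by
  induction u with
  | nil => exact le_rfl
  | cons a u ih =>
    simp only [List.foldr_cons]
    exact ih.trans (hx a _).le

variable {G : Type} [Group G] {R : Set (List A × List A)} {π : A → G}

theorem step_lt (hf : ∀ a, StrictMono (f a))
    (hR : ∀ p ∈ R, val π p.1 = val π p.2 ∧ ∀ x, p.2.foldr f x < p.1.foldr f x)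
    {u v : List A} (h : Step R u v) : v.foldr f 0 < u.foldr f 0 := by
  obtain ⟨p, l, r, q, h1, rfl, rfl⟩ := h
  simp only [List.foldr_append]
  exact foldr_mono hf p ((hR _ h1).2 _)

theorem step_val (hR : ∀ p ∈ R, val π p.1 = val π p.2 ∧ ∀ x, p.2.foldr f x < p.1.foldr f x)
    {u v : List A} (h : Step R u v) : val π u = val π v := by
  obtain ⟨p, l, r, q, h1, rfl, rfl⟩ := h
  rw [val_append, val_append, val_append, val_append, (hR _ h1).1]

theorem steps_val (hR : ∀ p ∈ R, val π p.1 = val π p.2 ∧ ∀ x, p.2.foldr f x < p.1.foldr f x)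
    {u v : List A} (h : Relation.ReflTransGen (Step R) u v) : val π u = val π v := by
  induction h with
  | refl => rfl
  | tail _ h2 ih => rw [ih, step_val hR h2]

theorem exists_irr (hf : ∀ a, StrictMono (f a))
    (hR : ∀ p ∈ R, val π p.1 = val π p.2 ∧ ∀ x, p.2.foldr f x < p.1.foldr f x) (u : List A) :
    ∃ z, Relation.ReflTransGen (Step R) u z ∧ Irr R z := by
  induction hn : u.foldr f 0 using Nat.strong_induction_on generalizing u with
  | _ n ih =>
    by_cases h : Irr R u
    · exact ⟨u, Relation.ReflTransGen.refl, h⟩
    · unfold Irr at h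
      push Not at h
      obtain ⟨p, l, r, q, h1, h2⟩ := h
      have h3 : Step R u (p ++ r ++ q) := ⟨p, l, r, q, h1, h2, rfl⟩
      obtain ⟨z, h4, h5⟩ := ih _ (hn ▸ step_lt hf hR h3) _ rfl
      exact ⟨z, Relation.ReflTransGen.head h3 h4, h5⟩

end

theorem good_crs {G : Type} [Group G] (h : Good (⊤ : Subgroup G)) : HasCRS G := by
  obtain ⟨A, R, π, f, hA, hRf, hf, hx, hR, hi, hm⟩ := h
  refine ⟨A, R, hA, hRf, ?_, ?_, ?_⟩
  · rintro ⟨w, hw⟩
    have h1 : ∀ n, (w n).foldr f 0 + n ≤ (w 0).foldr f 0 := by
      intro n
      induction n with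
      | zero => exact le_rfl
      | succ n ih =>
        have := step_lt hf hR (hw n)
        omega
    have := h1 ((w 0).foldr f 0 + 1)
    omega
  · intro u v w h1 h2
    obtain ⟨z1, h3, h4⟩ := exists_irr hf hR v
    obtain ⟨z2, h5, h6⟩ := exists_irr hf hR w
    have h7 : z1 = z2 := hi _ _ h4 h6 (by
      rw [← steps_val hR h3, ← steps_val hR h5, ← steps_val hR h1, ← steps_val hR h2])
    subst h7
    exact ⟨z1, h3, h5⟩
  · set rel : FreeMonoid A → FreeMonoid A → Prop := fun u v => (u.toList, v.toList) ∈ R with hrel
    have hl : ∀ u : FreeMonoid A, FreeMonoid.lift π u = val π u.toList := by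
      intro u
      rw [FreeMonoid.lift_apply]
      rfl
    have hlift : ∀ a b : FreeMonoid A, rel a b → FreeMonoid.lift π a = FreeMonoid.lift π b := by
      intro a b hab
      rw [hl, hl]
      exact (hR _ hab).1
    have hst : ∀ u v : List A, Step R u v →
        PresentedMonoid.mk rel (FreeMonoid.ofList u) = PresentedMonoid.mk rel (FreeMonoid.ofList v) := by
      rintro u v ⟨p, l, r, q, h1, rfl, rfl⟩
      have h2 : PresentedMonoid.mk rel (FreeMonoid.ofList l) = PresentedMonoid.mk rel (FreeMonoid.ofList r) := by
        exact Quotient.sound (ConGen.Rel.of _ _ h1)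
      rw [FreeMonoid.ofList_append, FreeMonoid.ofList_append, FreeMonoid.ofList_append,
        FreeMonoid.ofList_append, map_mul, map_mul, map_mul, map_mul, h2]
    have hsts : ∀ u v : List A, Relation.ReflTransGen (Step R) u v →
        PresentedMonoid.mk rel (FreeMonoid.ofList u) = PresentedMonoid.mk rel (FreeMonoid.ofList v) := by
      intro u v h
      induction h with
      | refl => rfl
      | tail _ h2 ih => rw [ih, hst _ _ h2]
    refine ⟨MulEquiv.ofBijective (PresentedMonoid.lift π hlift) ⟨?_, ?_⟩⟩
    · intro a b hab
      induction a using PresentedMonoid.inductionOn with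
      | _ a =>
      induction b using PresentedMonoid.inductionOn with
      | _ b =>
      have h1 : val π a.toList = val π b.toList := by
        rw [← hl, ← hl]
        exact hab
      obtain ⟨z1, h3, h4⟩ := exists_irr hf hR a.toList
      obtain ⟨z2, h5, h6⟩ := exists_irr hf hR b.toList
      have h7 : z1 = z2 := hi _ _ h4 h6 (by
        rw [← steps_val hR h3, ← steps_val hR h5, h1])
      subst h7
      have h8 := hsts _ _ h3
      have h9 := hsts _ _ h5
      exact h8.trans h9.symm
    · intro g
      obtain ⟨u, hu⟩ := (hm g).1 (Subgroup.mem_top g)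
      refine ⟨PresentedMonoid.mk rel (FreeMonoid.ofList u), ?_⟩
      rw [← hu]
      exact hl (FreeMonoid.ofList u)

end Pool.Agent.Helper2CR
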