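import Mathlib

/-!
Free products: an action on normal forms of cosets, and products of elements `g η h`.
-/

set_option autoImplicit false

namespace Pool.Agent.Helper2CR

open Monoid

section act
variable {G H : Type} [Group G] [Group H]

open Classical in
/-- the action of `H` on normal forms -/
noncomputable def hact (η : H) : List (G × H) → List (G × H)
  | [] => if η = 1 then [] else [(1, η)]
  | (g, θ) :: l => if g = 1 then (if η * θ = 1 then l else (1, η * θ) :: l)
      else (if η = 1 then (g, θ) :: l else (1, η) :: (g, θ) :: l)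

/-- the action of `G` on normal forms -/
def gact (k : G) : List (G × H) → List (G × H)
  | [] => []
  | (g, θ) :: l => (k * g, θ) :: l

/-- normal forms -/
def Vd : List (G × H) → Prop
  | [] => True
  | (_, θ) :: l => θ ≠ 1 ∧ (∀ p ∈ l, p.1 ≠ 1 ∧ p.2 ≠ 1)

open Classical in
theorem hact_nil (η : H) : hact η ([] : List (G × H)) = if η = 1 then [] else [(1, η)] := rfl

open Classical in
theorem hact_cons (η : H) (g : G) (θ : H) (l : List (G × H)) : hact η ((g, θ) :: l) =
    if g = 1 then (if η * θ = 1 then l else (1, η * θ) :: l)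
      else (if η = 1 then (g, θ) :: l else (1, η) :: (g, θ) :: l) := rfl

theorem vd_hact (η : H) (s : List (G × H)) (hs : Vd s) : Vd (hact η s) := by
  rcases s with _ | ⟨⟨g, θ⟩, l⟩
  · rw [hact_nil]
    split_ifs with h <;> simp [Vd, h]
  · obtain ⟨h1, h2⟩ := hs
    rw [hact_cons]
    split_ifs with h3 h4 h5
    · rcases l with _ | ⟨⟨g', θ'⟩, l⟩
      · trivial
      · refine ⟨(h2 _ (List.mem_cons_self ..)).2, fun p hp => h2 p (List.mem_cons_of_mem _ hp)⟩
    · exact ⟨h4, h2⟩
    · exact ⟨h1, h2⟩
    · refine ⟨h5, ?_⟩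
      intro p hp
      rcases List.mem_cons.1 hp with rfl | hp
      · exact ⟨h3, h1⟩
      · exact h2 p hp

theorem vd_gact (k : G) (s : List (G × H)) (hs : Vd s) : Vd (gact k s) := by
  rcases s with _ | ⟨⟨g, θ⟩, l⟩
  · trivial
  · exact hs

theorem hact_one (s : List (G × H)) (hs : Vd s) : hact 1 s = s := by
  rcases s with _ | ⟨⟨g, θ⟩, l⟩
  · simp [hact]
  · obtain ⟨h1, h2⟩ := hs
    by_cases hg : g = 1
    · simp [hact, hg, h1]
    · simp [hact, hg]

theorem hact_mul (η' η : H) (s : List (G × H)) (hs : Vd s) :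
    hact (η' * η) s = hact η' (hact η s) := by
  rcases s with _ | ⟨⟨g, θ⟩, l⟩
  · by_cases h : η = 1
    · simp [hact_nil, h]
    · rw [hact_nil, hact_nil, if_neg h, hact_cons, if_pos rfl]
  · obtain ⟨h1, h2⟩ := hs
    by_cases hg : g = 1
    · by_cases h : η * θ = 1
      · have h3 : η' * η * θ = η' := by rw [mul_assoc, h, mul_one]
        rw [hact_cons, hact_cons, if_pos hg, if_pos hg, if_pos h, h3]
        rcases l with _ | ⟨⟨g', θ'⟩, l⟩
        · rw [hact_nil]
        · have h4 := (h2 _ (List.mem_cons_self ..)).1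
          simp only at h4
          rw [hact_cons, if_neg h4]
      · rw [hact_cons, hact_cons, if_pos hg, if_pos hg, if_neg h, hact_cons, if_pos rfl, mul_assoc]
    · by_cases h : η = 1
      · rw [h, mul_one, hact_cons 1, if_neg hg, if_pos rfl]
      · rw [hact_cons, hact_cons, if_neg hg, if_neg hg, if_neg h, hact_cons, if_pos rfl]

theorem gact_one (s : List (G × H)) : gact 1 s = s := by
  rcases s with _ | ⟨⟨g, θ⟩, l⟩ <;> simp [gact]

theorem gact_mul (k' k : G) (s : List (G × H)) : gact (k' * k) s = gact k' (gact k s) := by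
  rcases s with _ | ⟨⟨g, θ⟩, l⟩ <;> simp [gact, mul_assoc]

variable (G H)

/-- the set of normal forms -/
abbrev NF := {s : List (G × H) // Vd s}

/-- the action of `G` -/
def φG : G →* Function.End (NF G H) where
  toFun k := fun s => ⟨gact k s.1, vd_gact k s.1 s.2⟩
  map_one' := by
    funext s
    exact Subtype.ext (gact_one s.1)
  map_mul' k' k := by
    funext s
    exact Subtype.ext (gact_mul k' k s.1)

/-- the action of `H` -/
noncomputable def φH : H →* Function.End (NF G H) where
  toFun η := fun s => ⟨hact η s.1, vd_hact η s.1 s.2⟩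
  map_one' := by
    funext s
    exact Subtype.ext (hact_one s.1 s.2)
  map_mul' k' k := by
    funext s
    exact Subtype.ext (hact_mul k' k s.1 s.2)

/-- the action of the free product -/
noncomputable def Φ : Coprod G H →* Function.End (NF G H) := Coprod.lift (φG G H) (φH G H)

variable {G H}

/-- the empty normal form moved by `x` -/
noncomputable def tr (x : Coprod G H) : List (G × H) := (Φ G H x ⟨[], trivial⟩).1

theorem tr_inl_mul (g : G) (x : Coprod G H) : tr (Coprod.inl g * x) = gact g (tr x) := by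
  unfold tr
  rw [map_mul]
  have h : Φ G H (Coprod.inl g) = φG G H g := by
    unfold Φ
    exact Coprod.lift_apply_inl _ _ _
  rw [h]
  rfl

theorem tr_inr_mul (η : H) (x : Coprod G H) : tr (Coprod.inr η * x) = hact η (tr x) := by
  unfold tr
  rw [map_mul]
  have h : Φ G H (Coprod.inr η) = φH G H η := by
    unfold Φ
    exact Coprod.lift_apply_inr _ _ _
  rw [h]
  rfl

theorem tr_one : tr (1 : Coprod G H) = [] := by
  unfold tr
  rw [map_one]
  rfl

theorem tr_inl (g : G) : tr (Coprod.inl g : Coprod G H) = [] := by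
  have := tr_inl_mul g (1 : Coprod G H)
  rw [mul_one, tr_one] at this
  exact this

/-- the product of a normal form -/
def pr (s : List (G × H)) : Coprod G H :=
  (s.map fun p => (Coprod.inl p.1 * Coprod.inr p.2 : Coprod G H)).prod

theorem pr_nil : pr ([] : List (G × H)) = 1 := rfl

theorem pr_cons (p : G × H) (s : List (G × H)) :
    pr (p :: s) = Coprod.inl p.1 * Coprod.inr p.2 * pr s := by simp [pr]

theorem pr_gact (g : G) (s : List (G × H)) (hs : s ≠ []) :
    pr (gact g s) = Coprod.inl g * pr s := by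
  rcases s with _ | ⟨⟨g', θ⟩, l⟩
  · exact absurd rfl hs
  · simp [gact, pr_cons, mul_assoc]

theorem pr_hact (η : H) (s : List (G × H)) : pr (hact η s) = Coprod.inr η * pr s := by
  rcases s with _ | ⟨⟨g, θ⟩, l⟩
  · rw [hact_nil]
    split_ifs with h
    · simp [pr_nil, h]
    · simp [pr_cons, pr_nil]
  · rw [hact_cons]
    split_ifs with h3 h4 h5
    · have : (Coprod.inr η * Coprod.inr θ : Coprod G H) = 1 := by rw [← map_mul, h4, map_one]
      rw [pr_cons]
      simp only [h3, map_one, one_mul]
      rw [← mul_assoc, this, one_mul]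
    · rw [pr_cons, pr_cons]
      simp only [h3, map_one, one_mul, map_mul, mul_assoc]
    · simp [h5]
    · rw [pr_cons]
      simp

/-- `x` does not lie in `G` and ends with `k` -/
def Q (k : G) (x : Coprod G H) : Prop := x = pr (tr x) * Coprod.inl k ∧ tr x ≠ []

theorem Q_not (k : G) (x : Coprod G H) (h : Q k x) (g : G) : x ≠ Coprod.inl g := by
  rintro rfl
  exact h.2 (tr_inl g)

theorem Q_base (k : G) (η : H) (h : η ≠ 1) : Q k (Coprod.inr η * Coprod.inl k : Coprod G H) := by
  have h1 : tr (Coprod.inr η * Coprod.inl k : Coprod G H) = [(1, η)] := by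
    rw [tr_inr_mul, tr_inl]
    simp [hact, h]
  refine ⟨?_, ?_⟩
  · rw [h1]
    simp [pr_cons, pr_nil]
  · rw [h1]
    simp

theorem Q_inl (k g : G) (x : Coprod G H) (h : Q k x) : Q k (Coprod.inl g * x) := by
  refine ⟨?_, ?_⟩
  · rw [tr_inl_mul, pr_gact _ _ h.2, mul_assoc, ← h.1]
  · rw [tr_inl_mul]
    have h2 := h.2
    rcases hh : tr x with _ | ⟨p, l⟩
    · exact absurd hh h2
    · simp [gact]

theorem Q_inr (k : G) (η : H) (x : Coprod G H) (h : Q k x) :
    Q k (Coprod.inr η * x) ∨ Coprod.inr η * x = Coprod.inl k := by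
  have h1 : Coprod.inr η * x = pr (tr (Coprod.inr η * x)) * Coprod.inl k := by
    rw [tr_inr_mul, pr_hact, mul_assoc, ← h.1]
  by_cases h2 : tr (Coprod.inr η * x) = []
  · right
    rw [h2, pr_nil, one_mul] at h1
    exact h1
  · exact Or.inl ⟨h1, h2⟩

/-- one letter more on the left -/
theorem Q_letter (k g g' : G) (η : H) (x : Coprod G H) (h : Q k x) :
    Q k (Coprod.inl g * Coprod.inr η * Coprod.inl g' * x) ∨
      Coprod.inl g * Coprod.inr η * Coprod.inl g' * x = Coprod.inl (g * k) := by
  have h1 := Q_inr k η _ (Q_inl k g' x h)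
  rcases h1 with h1 | h1
  · left
    have := Q_inl k g _ h1
    simpa [mul_assoc] using this
  · right
    simp only [mul_assoc]
    rw [h1, map_mul]

end act

end Pool.Agent.Helper2CR
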