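import Mathlib
import Pool.Agent.Helper2CR.Basic

/-!
Complete rewriting systems for subgroups with finitely many indecomposable irreducible words.
-/

set_option autoImplicit false

namespace Pool.Agent.Helper2CR

/-- `R` is a finite complete rewriting system over the finite alphabet `A` and presents the group
`H`, the letter `a` representing the element `π a` -/
def IsCRS {A H : Type} [Group H] (R : Set (List A × List A)) (π : A → H) : Prop :=
  Finite A ∧ R.Finite ∧
    (¬ ∃ w : ℕ → List A, ∀ n, Step R (w n) (w (n + 1))) ∧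
    (∀ u v w, Relation.ReflTransGen (Step R) u v → Relation.ReflTransGen (Step R) u w →
      ∃ z, Relation.ReflTransGen (Step R) v z ∧ Relation.ReflTransGen (Step R) w z) ∧
    ∃ e : PresentedMonoid (fun u v : FreeMonoid A => (u.toList, v.toList) ∈ R) ≃* H,
      ∀ a, e (PresentedMonoid.of _ a) = π a

/-- the properties of a complete rewriting system which are used -/
structure Nf {A H : Type} [Group H] (R : Set (List A × List A)) (π : A → H) : Prop where
  wf : WellFounded (fun v u => Step R u v)
  sv : ∀ u v, Step R u v → val π u = val π v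
  uq : ∀ u v, Irr R u → Irr R v → val π u = val π v → u = v
  sj : ∀ h, ∃ u, val π u = h

section
variable {A H : Type} [Group H] {R : Set (List A × List A)} {π : A → H}

theorem step_left (p : List A) {u v : List A} (h : Step R u v) : Step R (p ++ u) (p ++ v) := by
  obtain ⟨x, l, r, y, h1, rfl, rfl⟩ := h
  exact ⟨p ++ x, l, r, y, h1, by simp, by simp⟩

theorem step_right (p : List A) {u v : List A} (h : Step R u v) : Step R (u ++ p) (v ++ p) := by
  obtain ⟨x, l, r, y, h1, rfl, rfl⟩ := h
  exact ⟨x, l, r, y ++ p, h1, by simp, by simp⟩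

theorem steps_left (p : List A) {u v : List A} (h : Relation.ReflTransGen (Step R) u v) :
    Relation.ReflTransGen (Step R) (p ++ u) (p ++ v) := by
  induction h with
  | refl => exact .refl
  | tail _ h2 ih => exact ih.tail (step_left p h2)

theorem steps_right (p : List A) {u v : List A} (h : Relation.ReflTransGen (Step R) u v) :
    Relation.ReflTransGen (Step R) (u ++ p) (v ++ p) := by
  induction h with
  | refl => exact .refl
  | tail _ h2 ih => exact ih.tail (step_right p h2)

theorem steps_mul {u v u' v' : List A} (h : Relation.ReflTransGen (Step R) u v)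
    (h' : Relation.ReflTransGen (Step R) u' v') :
    Relation.ReflTransGen (Step R) (u ++ u') (v ++ v') :=
  (steps_right u' h).trans (steps_left v h')

theorem irr_steps {u v : List A} (hu : Irr R u) (h : Relation.ReflTransGen (Step R) u v) :
    u = v := by
  rcases Relation.ReflTransGen.cases_head h with h1 | ⟨w, h1, _⟩
  · exact h1
  · obtain ⟨x, l, r, y, h2, h3, _⟩ := h1
    exact absurd h3 (hu x l r y h2)

theorem Nf.steps (h : Nf R π) {u v : List A} (hs : Relation.ReflTransGen (Step R) u v) :
    val π u = val π v := by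
  induction hs with
  | refl => rfl
  | tail _ h2 ih => rw [ih, h.sv _ _ h2]

theorem Nf.exists_irr (h : Nf R π) (u : List A) :
    ∃ z, Relation.ReflTransGen (Step R) u z ∧ Irr R z := by
  induction u using h.wf.induction with
  | _ u ih =>
    by_cases hu : Irr R u
    · exact ⟨u, .refl, hu⟩
    · unfold Irr at hu
      push Not at hu
      obtain ⟨p, l, r, q, h1, h2⟩ := hu
      have h3 : Step R u (p ++ r ++ q) := ⟨p, l, r, q, h1, h2, rfl⟩
      obtain ⟨z, h4, h5⟩ := ih _ h3
      exact ⟨z, .head h3 h4, h5⟩

theorem nf_of_crs (h : IsCRS R π) : Nf R π := by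
  obtain ⟨_, _, ht, hc, e, he⟩ := h
  let rel : FreeMonoid A → FreeMonoid A → Prop := fun u v => (u.toList, v.toList) ∈ R
  have hval : ∀ u : List A, e (PresentedMonoid.mk rel (FreeMonoid.ofList u)) = val π u := by
    intro u
    induction u with
    | nil => simp [val]
    | cons a u ih =>
      rw [val_cons, ← ih, ← he a, FreeMonoid.ofList_cons, map_mul, map_mul]
      rfl
  have hst : ∀ u v : List A, Step R u v →
      PresentedMonoid.mk rel (FreeMonoid.ofList u) = PresentedMonoid.mk rel (FreeMonoid.ofList v) := by
    rintro u v ⟨p, l, r, q, h1, rfl, rfl⟩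
    have h2 : PresentedMonoid.mk rel (FreeMonoid.ofList l) = PresentedMonoid.mk rel (FreeMonoid.ofList r) := by
      exact Quotient.sound (ConGen.Rel.of _ _ h1)
    rw [FreeMonoid.ofList_append, FreeMonoid.ofList_append, FreeMonoid.ofList_append,
      FreeMonoid.ofList_append, map_mul, map_mul, map_mul, map_mul, h2]
  let J : FreeMonoid A → FreeMonoid A → Prop := fun u v =>
    ∃ z, Relation.ReflTransGen (Step R) u.toList z ∧ Relation.ReflTransGen (Step R) v.toList z
  let c : Con (FreeMonoid A) :=
    { r := J
      iseqv := by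
        refine ⟨fun u => ⟨u.toList, .refl, .refl⟩, ?_, ?_⟩
        · rintro u v ⟨z, h1, h2⟩
          exact ⟨z, h2, h1⟩
        · rintro u v w ⟨z, h1, h2⟩ ⟨z', h3, h4⟩
          obtain ⟨t, h5, h6⟩ := hc _ _ _ h2 h3
          exact ⟨t, h1.trans h5, h4.trans h6⟩
      mul' := by
        rintro u v u' v' ⟨z, h1, h2⟩ ⟨z', h3, h4⟩
        exact ⟨z ++ z', steps_mul h1 h3, steps_mul h2 h4⟩ }
  have hle : conGen rel ≤ c := by
    refine Con.conGen_le.2 ?_
    intro u v huv
    exact ⟨v.toList, .single ⟨[], u.toList, v.toList, [], huv, by simp, by simp⟩, .refl⟩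
  refine ⟨?_, ?_, ?_, ?_⟩
  · rw [wellFounded_iff_isEmpty_descending_chain]
    refine ⟨fun f => ht ⟨f.1, f.2⟩⟩
  · intro u v huv
    rw [← hval, ← hval, hst u v huv]
  · intro u v hu hv huv
    rw [← hval, ← hval] at huv
    have h1 := e.injective huv
    have h2 : conGen rel (FreeMonoid.ofList u) (FreeMonoid.ofList v) := (Con.eq _).1 h1
    obtain ⟨z, h3, h4⟩ := hle h2
    exact (irr_steps hu h3).trans (irr_steps hv h4).symm
  · intro h
    obtain ⟨m, rfl⟩ := e.surjective h
    induction m using PresentedMonoid.inductionOn with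
    | _ m => exact ⟨m.toList, (hval m.toList).symm⟩

theorem crs_of_nf [Finite A] (hRf : R.Finite) (h : Nf R π) : HasCRS H := by
  refine ⟨A, R, inferInstance, hRf, ?_, ?_, ?_⟩
  · rintro ⟨w, hw⟩
    have h1 := h.wf
    rw [wellFounded_iff_isEmpty_descending_chain] at h1
    exact h1.false ⟨w, hw⟩
  · intro u v w h1 h2
    obtain ⟨z1, h3, h4⟩ := h.exists_irr v
    obtain ⟨z2, h5, h6⟩ := h.exists_irr w
    have h7 : z1 = z2 := h.uq _ _ h4 h6 (by
      rw [← h.steps h3, ← h.steps h5, ← h.steps h1, ← h.steps h2])
    subst h7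
    exact ⟨z1, h3, h5⟩
  · set rel : FreeMonoid A → FreeMonoid A → Prop := fun u v => (u.toList, v.toList) ∈ R with hrel
    have hl : ∀ u : FreeMonoid A, FreeMonoid.lift π u = val π u.toList := by
      intro u
      rw [FreeMonoid.lift_apply]
      rfl
    have hlift : ∀ a b : FreeMonoid A, rel a b → FreeMonoid.lift π a = FreeMonoid.lift π b := by
      intro a b hab
      rw [hl, hl]
      exact h.sv _ _ ⟨[], a.toList, b.toList, [], hab, by simp, by simp⟩
    have hst : ∀ u v : List A, Step R u v →
        PresentedMonoid.mk rel (FreeMonoid.ofList u) = PresentedMonoid.mk rel (FreeMonoid.ofList v) := by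
      rintro u v ⟨p, l, r, q, h1, rfl, rfl⟩
      have h2 : PresentedMonoid.mk rel (FreeMonoid.ofList l) = PresentedMonoid.mk rel (FreeMonoid.ofList r) := by
        exact Quotient.sound (ConGen.Rel.of _ _ h1)
      rw [FreeMonoid.ofList_append, FreeMonoid.ofList_append, FreeMonoid.ofList_append,
        FreeMonoid.ofList_append, map_mul, map_mul, map_mul, map_mul, h2]
    have hsts : ∀ u v : List A, Relation.ReflTransGen (Step R) u v →
        PresentedMonoid.mk rel (FreeMonoid.ofList u) = PresentedMonoid.mk rel (FreeMonoid.ofList v) := by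
      intro u v h
      induction h with
      | refl => rfl
      | tail _ h2 ih => rw [ih, hst _ _ h2]
    refine ⟨MulEquiv.ofBijective (PresentedMonoid.lift π hlift) ⟨?_, ?_⟩⟩
    · intro a b hab
      induction a using PresentedMonoid.inductionOn with
      | _ a =>
      induction b using PresentedMonoid.inductionOn with
      | _ b =>
      have h1 : val π a.toList = val π b.toList := by
        rw [← hl, ← hl]
        exact hab
      obtain ⟨z1, h3, h4⟩ := h.exists_irr a.toList
      obtain ⟨z2, h5, h6⟩ := h.exists_irr b.toList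
      have h7 : z1 = z2 := h.uq _ _ h4 h6 (by
        rw [← h.steps h3, ← h.steps h5, h1])
      subst h7
      have h8 := hsts _ _ h3
      have h9 := hsts _ _ h5
      exact h8.trans h9.symm
    · intro g
      obtain ⟨u, hu⟩ := h.sj g
      refine ⟨PresentedMonoid.mk rel (FreeMonoid.ofList u), ?_⟩
      rw [← hu]
      exact hl (FreeMonoid.ofList u)

end

end Pool.Agent.Helper2CR
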