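import Mathlib
import Pool.Agent.Helper2CR.Sub
import Pool.Agent.Helper2CR.Fp

/-!
Complete rewriting systems for subgroups with finitely many indecomposable irreducible words, and
for free factors.
-/

set_option autoImplicit false

namespace Pool.Agent.Helper2CR

open Monoid

section blk
variable {A K G : Type} [Group K] [Group G] {R : Set (List A × List A)} {π : A → K} {ι : G →* K}

/-- nonempty irreducible words which represent elements of the subgroup and are not products of two
such words -/
def Blk (R : Set (List A × List A)) (π : A → K) (ι : G →* K) : Set (List A) :=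
  {u | Irr R u ∧ u ≠ [] ∧ val π u ∈ ι.range ∧
    ∀ p q, u = p ++ q → p ≠ [] → q ≠ [] → val π q ∉ ι.range}

/-- the word over `A` -/
def ex (β : List (Blk R π ι)) : List A := (β.map Subtype.val).flatten

theorem ex_nil : ex ([] : List (Blk R π ι)) = [] := rfl

theorem ex_cons (b : Blk R π ι) (β : List (Blk R π ι)) : ex (b :: β) = b.1 ++ ex β := by
  simp [ex]

theorem ex_append (β γ : List (Blk R π ι)) : ex (β ++ γ) = ex β ++ ex γ := by
  simp [ex]

theorem irr_l {p q : List A} (h : Irr R (p ++ q)) : Irr R p := by
  intro x l r y h1 h2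
  exact h x l r (y ++ q) h1 (by rw [h2]; simp)

theorem irr_r {p q : List A} (h : Irr R (p ++ q)) : Irr R q := by
  intro x l r y h1 h2
  exact h (p ++ x) l r y h1 (by rw [h2]; simp)

theorem ex_surj (n : ℕ) : ∀ u : List A, u.length ≤ n → Irr R u → val π u ∈ ι.range →
    ∃ β : List (Blk R π ι), ex β = u := by
  induction n with
  | zero =>
    intro u hu _ _
    refine ⟨[], ?_⟩
    rw [List.length_eq_zero_iff.1 (Nat.le_zero.1 hu)]
    rfl
  | succ n ih =>
    intro u hu h1 h2
    by_cases h0 : u = []
    · exact ⟨[], by rw [h0]; rfl⟩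
    by_cases h3 : u ∈ Blk R π ι
    · exact ⟨[⟨u, h3⟩], by simp [ex]⟩
    · have h4 : ∃ p q, u = p ++ q ∧ p ≠ [] ∧ q ≠ [] ∧ val π q ∈ ι.range := by
        by_contra h5
        push Not at h5
        exact h3 ⟨h1, h0, h2, fun p q a b c => h5 p q a b c⟩
      obtain ⟨p, q, rfl, hp, hq, h5⟩ := h4
      have hp' := List.length_pos_iff.2 hp
      have hq' := List.length_pos_iff.2 hq
      rw [List.length_append] at hu
      have h6 : val π p ∈ ι.range := by
        rw [val_append] at h2
        exact (Subgroup.mul_mem_cancel_right _ h5).1 h2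
      obtain ⟨β, hβ⟩ := ih p (by omega) (irr_l h1) h6
      obtain ⟨γ, hγ⟩ := ih q (by omega) (irr_r h1) h5
      exact ⟨β ++ γ, by rw [ex_append, hβ, hγ]⟩

theorem blk_prefix (b b' : Blk R π ι) (c : List A) (h : b'.1 = b.1 ++ c) : c = [] := by
  by_contra hc
  have h1 := b'.2.2.2.2 _ _ h b.2.2.1 hc
  apply h1
  have h2 := b'.2.2.2.1
  rw [h, val_append] at h2
  exact (Subgroup.mul_mem_cancel_left _ b.2.2.2.1).1 h2

theorem ex_inj : ∀ β γ : List (Blk R π ι), ex β = ex γ → β = γ := by
  intro β
  induction β with
  | nil =>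
    intro γ h
    rcases γ with _ | ⟨b, γ⟩
    · rfl
    · rw [ex_nil, ex_cons] at h
      exact absurd (List.append_eq_nil_iff.1 h.symm).1 b.2.2.1
  | cons b β ih =>
    intro γ h
    rcases γ with _ | ⟨b', γ⟩
    · rw [ex_nil, ex_cons] at h
      exact absurd (List.append_eq_nil_iff.1 h).1 b.2.2.1
    · rw [ex_cons, ex_cons] at h
      rcases List.append_eq_append_iff.1 h with ⟨c, h1, h2⟩ | ⟨c, h1, h2⟩
      · have hc := blk_prefix b b' c h1
        subst hc
        rw [List.append_nil] at h1
        rw [Subtype.ext h1, ih γ (by simpa using h2)]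
      · have hc := blk_prefix b' b c h1
        subst hc
        rw [List.append_nil] at h1
        rw [Subtype.ext h1, ih γ (by simpa using h2.symm)]

theorem ex_length (β : List (Blk R π ι)) : β.length ≤ (ex β).length := by
  induction β with
  | nil => simp
  | cons b β ih =>
    have := List.length_pos_iff.2 b.2.2.1
    rw [ex_cons, List.length_append, List.length_cons]
    omega

theorem ex_factor (l : List A) : ∀ (γ : List (Blk R π ι)) (x y : List A), ex γ = x ++ l ++ y →
    ∃ γ1 β γ2 x' y', γ = γ1 ++ β ++ γ2 ∧ β.length ≤ l.length + 1 ∧ ex β = x' ++ l ++ y' := by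
  intro γ
  induction γ with
  | nil =>
    intro x y h
    exact ⟨[], [], [], x, y, rfl, by simp, h⟩
  | cons b γ ih =>
    intro x y h
    rw [ex_cons, List.append_assoc] at h
    rcases List.append_eq_append_iff.1 h with ⟨c, h1, h2⟩ | ⟨c, h1, h2⟩
    · obtain ⟨γ1, β, γ2, x', y', h3, h4, h5⟩ := ih c y (by rw [h2]; simp)
      exact ⟨b :: γ1, β, γ2, x', y', by rw [h3]; simp, h4, h5⟩
    · have h6 : l <+: c ++ ex (γ.take l.length) := by
        rcases le_total γ.length l.length with h3 | h3
        · rw [List.take_of_length_le h3, ← h2]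
          exact List.prefix_append _ _
        · have h4 : l <+: c ++ ex γ := by
            rw [← h2]
            exact List.prefix_append _ _
          have h5 : c ++ ex (γ.take l.length) <+: c ++ ex γ := by
            refine ⟨ex (γ.drop l.length), ?_⟩
            rw [List.append_assoc, ← ex_append, List.take_append_drop]
          refine List.prefix_of_prefix_length_le h4 h5 ?_
          have h7 := ex_length (γ.take l.length)
          rw [List.length_take, min_eq_left h3] at h7
          rw [List.length_append]
          omega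
      obtain ⟨y', hy'⟩ := h6
      refine ⟨[], b :: γ.take l.length, γ.drop l.length, x, y', ?_, ?_, ?_⟩
      · rw [List.nil_append, List.cons_append, List.take_append_drop]
      · rw [List.length_cons, List.length_take]
        omega
      · rw [ex_cons, h1, List.append_assoc, ← hy']
        simp

theorem crs_of_blk [Finite A] (hRf : R.Finite) (h : Nf R π) (hι : Function.Injective ι)
    (hB : (Blk R π ι).Finite) : HasCRS G := by
  have hBf : Finite (Blk R π ι) := hB
  have h0 : ∀ b : Blk R π ι, ∃ g, ι g = val π b.1 := fun b => b.2.2.2.1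
  choose ρ hρ using h0
  have hval : ∀ β : List (Blk R π ι), ι (val ρ β) = val π (ex β) := by
    intro β
    induction β with
    | nil => simp [val, ex]
    | cons b β ih => rw [val_cons, map_mul, ih, hρ, ex_cons, val_append]
  obtain ⟨L, hL⟩ : ∃ L : ℕ, ∀ p ∈ R, p.1.length + 1 ≤ L := by
    obtain ⟨L, hL⟩ := (hRf.image fun p => p.1.length + 1).bddAbove
    exact ⟨L, fun p hp => hL ⟨p, hp, rfl⟩⟩
  let S : Set (List (Blk R π ι) × List (Blk R π ι)) :=
    {p | p.1.length ≤ L ∧ ¬ Irr R (ex p.1) ∧ Irr R (ex p.2) ∧
      Relation.ReflTransGen (Step R) (ex p.1) (ex p.2)}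
  have hSf : S.Finite := by
    refine Set.Finite.of_injOn (f := Prod.fst) (t := {l | l.length ≤ L}) ?_ ?_
      (List.finite_length_le _ _)
    · intro p hp
      exact hp.1
    · rintro ⟨p, p'⟩ hp ⟨q, q'⟩ hq hpq
      simp only at hpq
      subst hpq
      have h1 : ex p' = ex q' := h.uq _ _ hp.2.2.1 hq.2.2.1
        ((h.steps hp.2.2.2).symm.trans (h.steps hq.2.2.2))
      rw [ex_inj _ _ h1]
  have hstep : ∀ u v, Step S u v → Relation.ReflTransGen (Step R) (ex u) (ex v) ∧ ex u ≠ ex v := by
    rintro u v ⟨p, l, r, q, h1, rfl, rfl⟩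
    obtain ⟨_, h2, h3, h4⟩ := h1
    refine ⟨?_, ?_⟩
    · simp only [ex_append]
      exact steps_right _ (steps_left _ h4)
    · intro h5
      simp only [ex_append] at h5
      have h6 := List.append_cancel_left (List.append_cancel_right h5)
      simp only at h2 h3
      rw [h6] at h2
      exact h2 h3
  have hnf : Nf S ρ := by
    refine ⟨?_, ?_, ?_, ?_⟩
    · refine Subrelation.wf ?_ (InvImage.wf ex (h.wf.transGen))
      intro v u huv
      obtain ⟨h1, h2⟩ := hstep u v huv
      rcases Relation.reflTransGen_iff_eq_or_transGen.1 h1 with h3 | h3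
      · exact absurd h3.symm h2
      · exact Relation.transGen_swap.2 h3
    · intro u v huv
      apply hι
      rw [hval, hval]
      exact h.steps (hstep u v huv).1
    · have key : ∀ u : List (Blk R π ι), Irr S u → Irr R (ex u) := by
        intro u hu x l r y h1 h2
        obtain ⟨γ1, β, γ2, x', y', h3, h4, h5⟩ := ex_factor l u x y h2
        obtain ⟨z, h6, h7⟩ := h.exists_irr (ex β)
        have h8 : val π z ∈ ι.range := by
          rw [← h.steps h6, ← hval]
          exact ⟨_, rfl⟩
        obtain ⟨β', hβ'⟩ := ex_surj z.length z le_rfl h7 h8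
        refine hu γ1 β β' γ2 ⟨?_, ?_, ?_, ?_⟩ h3
        · have := hL _ h1
          simp only at this ⊢
          omega
        · intro h9
          exact h9 x' l r y' h1 h5
        · simp only
          rw [hβ']
          exact h7
        · simp only
          rw [hβ']
          exact h6
      intro u v hu hv huv
      apply ex_inj
      apply h.uq _ _ (key u hu) (key v hv)
      rw [← hval, ← hval, huv]
    · intro g
      obtain ⟨u, hu⟩ := h.sj (ι g)
      obtain ⟨z, h6, h7⟩ := h.exists_irr u
      have h8 : val π z = ι g := by rw [← h.steps h6, hu]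
      obtain ⟨β, hβ⟩ := ex_surj z.length z le_rfl h7 (show val π z ∈ ι.range from ⟨g, h8.symm⟩)
      refine ⟨β, hι ?_⟩
      rw [hval, hβ, h8]
  exact crs_of_nf hSf hnf

end blk

section free
variable {A G H : Type} [Group G] [Group H] {R : Set (List A × List A)} {π : A → Coprod G H}

theorem blk_finite [Finite A] (h : Nf R π)
    (hl : ∀ a, ∃ (g : G) (η : H) (g' : G), π a = Coprod.inl g * Coprod.inr η * Coprod.inl g') :
    (Blk R π (Coprod.inl : G →* Coprod G H)).Finite := by
  choose g η g' hl using hl
  have hV : (Set.range π ∪ Set.range (fun p : A × A => (Coprod.inl (g p.1 * g' p.2) : Coprod G H))).Finite :=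
    (Set.finite_range _).union (Set.finite_range _)
  have hinj : Set.InjOn (val π) (Blk R π (Coprod.inl : G →* Coprod G H)) := by
    intro u hu v hv huv
    exact h.uq _ _ hu.1 hv.1 huv
  refine Set.Finite.of_finite_image (hV.subset ?_) hinj
  rintro _ ⟨u, ⟨h1, h2, h3, h4⟩, rfl⟩
  obtain ⟨s, z, rfl⟩ : ∃ s z, u = s ++ [z] := ⟨u.dropLast, u.getLast h2, (List.dropLast_append_getLast h2).symm⟩
  have key : ∀ (s' p : List A), s ++ [z] = p ++ (s' ++ [z]) → p ≠ [] →
      Q (g' z) (val π (s' ++ [z])) := by
    intro s'
    induction s' with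
    | nil =>
      intro p hp hp0
      have h5 := h4 p [z] (by simpa using hp) hp0 (by simp)
      have h6 : η z ≠ 1 := by
        intro h6
        apply h5
        rw [val_one, hl z, h6, map_one, mul_one, ← map_mul]
        exact ⟨_, rfl⟩
      rw [List.nil_append, val_one, hl z, mul_assoc]
      exact Q_inl _ _ _ (Q_base _ _ h6)
    | cons a s' ih =>
      intro p hp hp0
      have h5 := ih (p ++ [a]) (by rw [hp]; simp) (by simp)
      have h6 := Q_letter (g' z) (g a) (g' a) (η a) _ h5
      have h7 : val π (a :: s' ++ [z]) =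
          Coprod.inl (g a) * Coprod.inr (η a) * Coprod.inl (g' a) * val π (s' ++ [z]) := by
        rw [List.cons_append, val_cons, hl a]
      rcases h6 with h6 | h6
      · rw [h7]
        exact h6
      · exfalso
        apply h4 p (a :: s' ++ [z]) hp hp0 (by simp)
        rw [h7, h6]
        exact ⟨_, rfl⟩
  rcases s with _ | ⟨a, s⟩
  · left
    refine ⟨z, ?_⟩
    rw [List.nil_append, val_one]
  · right
    refine ⟨(a, z), ?_⟩
    have h5 := key s [a] (by simp) (by simp)
    have h6 := Q_letter (g' z) (g a) (g' a) (η a) _ h5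
    have h7 : val π (a :: s ++ [z]) =
        Coprod.inl (g a) * Coprod.inr (η a) * Coprod.inl (g' a) * val π (s ++ [z]) := by
      rw [List.cons_append, val_cons, hl a]
    rcases h6 with h6 | h6
    · exfalso
      obtain ⟨k, hk⟩ := h3
      rw [h7] at hk
      exact Q_not _ _ h6 k hk.symm
    · simp only
      rw [h7, h6]

theorem free_factor_crs (h : IsCRS R π)
    (hl : ∀ a, ∃ (g : G) (η : H) (g' : G), π a = Coprod.inl g * Coprod.inr η * Coprod.inl g') :
    HasCRS G := by
  have hA : Finite A := h.1
  have hn := nf_of_crs h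
  exact crs_of_blk h.2.1 hn Coprod.inl_injective (blk_finite hn hl)

end free

end Pool.Agent.Helper2CR
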