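import Pool.Agent.Helper2CR.Ext

/-!
Extensions by cyclic groups.
-/

set_option autoImplicit false

namespace Pool.Agent.Helper2CR

variable {G : Type} [Group G]

theorem nil_of_empty (u : List Empty) : u = [] := by
  cases u with
  | nil => rfl
  | cons a _ => exact a.elim

theorem good_bot : Good (⊥ : Subgroup G) := by
  refine ⟨Empty, ∅, Empty.elim, fun a => a.elim, inferInstance, Set.finite_empty, fun a => a.elim,
    fun a => a.elim, fun p hp => hp.elim, ?_, ?_⟩
  · intro u v _ _ _
    rw [nil_of_empty u, nil_of_empty v]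
  · intro g
    rw [Subgroup.mem_bot]
    constructor
    · rintro rfl
      exact ⟨[], rfl⟩
    · rintro ⟨u, rfl⟩
      rw [nil_of_empty u]
      rfl

theorem val_replicate {B : Type} (s : B → G) (b : B) (n : ℕ) :
    val s (List.replicate n b) = s b ^ n := by
  unfold val
  rw [List.map_replicate, List.prod_replicate]

theorem sup_form {K : Subgroup G} {t : G} (hn : ∀ k ∈ K, t * k * t⁻¹ ∈ K)
    (hn' : ∀ k ∈ K, t⁻¹ * k * t ∈ K) {g : G} (hg : g ∈ K ⊔ Subgroup.zpowers t) :
    ∃ k ∈ K, ∃ i : ℤ, g = k * t ^ i := by
  have hz : ∀ i : ℤ, ∀ k ∈ K, t ^ i * k * (t ^ i)⁻¹ ∈ K := by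
    intro i
    induction i with
    | zero => intro k hk; simpa using hk
    | succ n ih =>
      intro k hk
      have h1 := hn _ (ih k hk)
      have e : t * (t ^ (n : ℤ) * k * (t ^ (n : ℤ))⁻¹) * t⁻¹ =
          t ^ ((n : ℤ) + 1) * k * (t ^ ((n : ℤ) + 1))⁻¹ := by group
      rwa [e] at h1
    | pred n ih =>
      intro k hk
      have h1 := hn' _ (ih k hk)
      have e : t⁻¹ * (t ^ (-(n : ℤ)) * k * (t ^ (-(n : ℤ)))⁻¹) * t =
          t ^ (-(n : ℤ) - 1) * k * (t ^ (-(n : ℤ) - 1))⁻¹ := by group
      rwa [e] at h1
  let S : Subgroup G :=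
    { carrier := {g | ∃ k ∈ K, ∃ i : ℤ, g = k * t ^ i}
      one_mem' := ⟨1, K.one_mem, 0, by simp⟩
      mul_mem' := by
        rintro a b ⟨k, hk, i, rfl⟩ ⟨l, hl, j, rfl⟩
        refine ⟨k * (t ^ i * l * (t ^ i)⁻¹), K.mul_mem hk (hz i l hl), i + j, ?_⟩
        rw [zpow_add]
        group
      inv_mem' := by
        rintro a ⟨k, hk, i, rfl⟩
        refine ⟨t ^ (-i) * k⁻¹ * (t ^ (-i))⁻¹, hz _ _ (K.inv_mem hk), -i, ?_⟩
        group }
  have h1 : K ⊔ Subgroup.zpowers t ≤ S := by
    refine sup_le ?_ ?_
    · intro k hk
      exact ⟨k, hk, 0, by simp⟩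
    · rw [Subgroup.zpowers_le]
      exact ⟨1, K.one_mem, 1, by simp⟩
  exact h1 hg

theorem good_cyclic {K : Subgroup G} (hK : Good K) (t : G) (hn : ∀ k ∈ K, t * k * t⁻¹ ∈ K)
    (hn' : ∀ k ∈ K, t⁻¹ * k * t ∈ K) : Good (K ⊔ Subgroup.zpowers t) := by
  classical
  have hform := fun g (hg : g ∈ K ⊔ Subgroup.zpowers t) => sup_form hn hn' hg
  have hKK : K ≤ K ⊔ Subgroup.zpowers t := le_sup_left
  have ht : t ∈ K ⊔ Subgroup.zpowers t :=
    (le_sup_right : Subgroup.zpowers t ≤ _) (Subgroup.mem_zpowers t)
  by_cases hfin : ∃ n : ℕ, 0 < n ∧ t ^ n ∈ K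
  · set n := Nat.find hfin with hndef
    obtain ⟨hn0, hnK⟩ := Nat.find_spec hfin
    have hmin : ∀ m : ℕ, 0 < m → m < n → t ^ m ∉ K := by
      intro m h1 h2 h3
      exact Nat.find_min hfin h2 ⟨h1, h3⟩
    have hrep : ∀ β : List Unit, β = List.replicate β.length () :=
      fun β => List.eq_replicate_of_mem fun b _ => rfl
    have hval : ∀ β : List Unit, val (fun _ : Unit => t) β = t ^ β.length := by
      intro β
      conv_lhs => rw [hrep β]
      rw [val_replicate]
    refine extend hK (B := Unit) (fun _ => t) (fun _ => hn) {(List.replicate n (), [])}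
      (Set.finite_singleton _) ?_ ?_ ?_ hKK (fun _ => ht) ?_
    · intro p hp
      rw [Set.mem_singleton_iff] at hp
      subst hp
      simp only [hval, List.length_replicate, List.length_nil, pow_zero, inv_one, mul_one]
      exact hnK
    · intro p hp
      rw [Set.mem_singleton_iff] at hp
      subst hp
      simp only [List.length_nil, List.length_replicate]
      exact hn0
    · have hlt : ∀ β : List Unit, Irr {(List.replicate n (), ([] : List Unit))} β → β.length < n := by
        intro β h
        by_contra hge
        push Not at hge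
        refine h [] (List.replicate n ()) [] (List.replicate (β.length - n) ()) rfl ?_
        rw [List.nil_append, ← List.replicate_add]
        conv_lhs => rw [hrep β]
        congr 1
        omega
      have key : ∀ u v : List Unit, u.length < n → v.length < n → u.length ≤ v.length →
          val (fun _ : Unit => t) u * (val (fun _ : Unit => t) v)⁻¹ ∈ K → u = v := by
        intro u v hu hv huv h
        rw [hval, hval] at h
        have h1 : t ^ (v.length - u.length) ∈ K := by
          have h2 := K.inv_mem h
          have h3 : (t ^ u.length * (t ^ v.length)⁻¹)⁻¹ = t ^ (v.length - u.length) := by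
            obtain ⟨d, hd⟩ := Nat.exists_eq_add_of_le huv
            rw [hd, Nat.add_sub_cancel_left, pow_add, mul_inv_rev, inv_inv]
            rw [← pow_add, add_comm, pow_add, mul_inv_cancel_right]
          rwa [h3] at h2
        by_cases h4 : u.length = v.length
        · rw [hrep u, hrep v, h4]
        · exact absurd h1 (hmin _ (by omega) (by omega))
      intro u v hu hv h
      rcases le_total u.length v.length with h1 | h1
      · exact key u v (hlt u hu) (hlt v hv) h1 h
      · refine (key v u (hlt v hv) (hlt u hu) h1 ?_).symm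
        have h2 := K.inv_mem h
        rwa [mul_inv_rev, inv_inv] at h2
    · intro g hg
      obtain ⟨k, hk, i, rfl⟩ := hform g hg
      have hn' : (n : ℤ) ≠ 0 := by exact_mod_cast hn0.ne'
      refine ⟨k * (t ^ n) ^ (i / n), K.mul_mem hk (K.zpow_mem hnK _),
        List.replicate (i % n).toNat (), ?_⟩
      rw [hval, List.length_replicate, mul_assoc, ← zpow_natCast t ((i % n).toNat),
        Int.toNat_of_nonneg (Int.emod_nonneg i hn'), ← zpow_natCast t n, ← zpow_mul, ← zpow_add,
        Int.mul_ediv_add_emod]
  · push Not at hfin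
    set s : Bool → G := fun b => if b then t else t⁻¹ with hs
    set RB : Set (List Bool × List Bool) := {([true, false], []), ([false, true], [])} with hRB
    have hz : ∀ m : ℤ, t ^ m ∈ K → m = 0 := by
      intro m hm
      by_contra h0
      rcases lt_or_gt_of_ne h0 with h1 | h1
      · refine hfin (-m).toNat (by omega) ?_
        have h2 := K.inv_mem hm
        rw [← zpow_natCast, Int.toNat_of_nonneg (by omega), zpow_neg]
        exact h2
      · refine hfin m.toNat (by omega) ?_
        rw [← zpow_natCast, Int.toNat_of_nonneg (by omega)]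
        exact hm
    have hirr : ∀ β : List Bool, Irr RB β → ∃ (b : Bool) (m : ℕ), β = List.replicate m b := by
      intro β
      induction β with
      | nil => exact fun _ => ⟨true, 0, rfl⟩
      | cons b β ih =>
        intro h
        have h1 : Irr RB β := by
          intro p l r q h2 h3
          exact h (b :: p) l r q h2 (by rw [h3]; rfl)
        obtain ⟨b', m, hm⟩ := ih h1
        cases m with
        | zero => exact ⟨b, 1, by rw [hm]; rfl⟩
        | succ m =>
          by_cases hb : b = b'
          · subst hb
            exact ⟨b, m + 2, by rw [hm]; rfl⟩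
          · exfalso
            refine h [] [b, b'] [] (List.replicate m b') ?_ (by rw [hm]; rfl)
            cases b <;> cases b'
            · exact absurd rfl hb
            · exact Or.inr rfl
            · exact Or.inl rfl
            · exact absurd rfl hb
    have hval : ∀ (b : Bool) (m : ℕ), val s (List.replicate m b) =
        t ^ (if b then (m : ℤ) else -(m : ℤ)) := by
      intro b m
      rw [val_replicate]
      cases b
      · simp [hs]
      · simp [hs]
    refine extend hK (B := Bool) s ?_ RB (by rw [hRB]; exact Set.toFinite _) ?_ ?_ ?_ hKK ?_ ?_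
    · intro b k hk
      cases b
      · simp only [hs]
        simpa using hn' k hk
      · exact hn k hk
    · rintro p (rfl | rfl)
      · have : val s [true, false] * (val s [])⁻¹ = 1 := by simp [val, hs]
        rw [this]
        exact K.one_mem
      · have : val s [false, true] * (val s [])⁻¹ = 1 := by simp [val, hs]
        rw [this]
        exact K.one_mem
    · rintro p (rfl | rfl) <;> simp
    · intro u v hu hv h
      obtain ⟨b, m, rfl⟩ := hirr u hu
      obtain ⟨b', m', rfl⟩ := hirr v hv
      rw [hval, hval, ← zpow_neg, ← zpow_add] at h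
      have h1 := hz _ h
      cases b <;> cases b' <;> simp only [Bool.false_eq_true, if_true, if_false] at h1
      · have : m = m' := by omega
        rw [this]
      · have h2 : m = 0 := by omega
        have h3 : m' = 0 := by omega
        rw [h2, h3]
        rfl
      · have h2 : m = 0 := by omega
        have h3 : m' = 0 := by omega
        rw [h2, h3]
        rfl
      · have : m = m' := by omega
        rw [this]
    · intro b
      cases b
      · simp only [hs]
        simpa using Subgroup.inv_mem _ ht
      · exact ht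
    · intro g hg
      obtain ⟨k, hk, i, rfl⟩ := hform g hg
      rcases le_total 0 i with h1 | h1
      · refine ⟨k, hk, List.replicate i.toNat true, ?_⟩
        rw [hval]
        simp only [if_true]
        rw [Int.toNat_of_nonneg h1]
      · refine ⟨k, hk, List.replicate (-i).toNat false, ?_⟩
        rw [hval]
        simp only [Bool.false_eq_true, if_false]
        rw [Int.toNat_of_nonneg (by omega), neg_neg]

/-- adding the elements of a list one after the other -/
theorem good_list {K L : Subgroup G} (hK : Good K)
    (hKL : ∀ g ∈ L, ∀ h ∈ L, g * h * g⁻¹ * h⁻¹ ∈ K) (hle : K ≤ L) (l : List G) (hl : ∀ t ∈ l, t ∈ L) :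
    ∃ M : Subgroup G, K ≤ M ∧ M ≤ L ∧ (∀ t ∈ l, t ∈ M) ∧ Good M := by
  induction l with
  | nil => exact ⟨K, le_rfl, hle, by simp, hK⟩
  | cons t l ih =>
    obtain ⟨M, h1, h2, h3, h4⟩ := ih fun s hs => hl s (List.mem_cons_of_mem _ hs)
    have ht : t ∈ L := hl t (List.mem_cons_self ..)
    refine ⟨M ⊔ Subgroup.zpowers t, h1.trans le_sup_left,
      sup_le h2 (by rwa [Subgroup.zpowers_le]), ?_, ?_⟩
    · intro s hs
      rcases List.mem_cons.1 hs with rfl | hs
      · exact (le_sup_right : Subgroup.zpowers s ≤ _) (Subgroup.mem_zpowers s)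
      · exact (le_sup_left : M ≤ _) (h3 s hs)
    · refine good_cyclic h4 t ?_ ?_
      · intro k hk
        have h5 := h1 (hKL t ht k (h2 hk))
        have h6 : t * k * t⁻¹ = (t * k * t⁻¹ * k⁻¹) * k := by group
        rw [h6]
        exact M.mul_mem h5 hk
      · intro k hk
        have h5 := h1 (hKL t⁻¹ (L.inv_mem ht) k (h2 hk))
        have h6 : t⁻¹ * k * t = (t⁻¹ * k * t⁻¹⁻¹ * k⁻¹) * k := by group
        rw [h6]
        exact M.mul_mem h5 hk

/-- an abelian extension with finitely generated `L` -/
theorem good_abelian {K L : Subgroup G} (hK : Good K)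
    (hKL : ∀ g ∈ L, ∀ h ∈ L, g * h * g⁻¹ * h⁻¹ ∈ K) (hle : K ≤ L) (hfg : L.FG) : Good L := by
  obtain ⟨S, hS⟩ := hfg
  obtain ⟨M, h1, h2, h3, h4⟩ := good_list hK hKL hle S.toList (by
    intro t ht
    rw [← hS]
    exact Subgroup.subset_closure (by simpa using ht))
  have h5 : M = L := by
    apply le_antisymm h2
    rw [← hS, Subgroup.closure_le]
    intro t ht
    exact h3 t (by simpa using ht)
  rwa [← h5]

end Pool.Agent.Helper2CR
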