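import Pool.Agent.Helper2CR.Num

/-!
The subgroup of even elements of a right-angled Coxeter group has a complete rewriting system.
-/

set_option autoImplicit false

namespace Pool.Agent.Helper2CR

open Pool.Agent.Helper2GI Pool.Agent.Helper2GI.RA

theorem tw (a : ZMod 2) : a + a = 0 := CharTwo.add_self_eq_zero a

section
variable {V : Type} (G : RA V) (o : V)

open Classical in
/-- powers of the base generator -/
noncomputable def yp (e : ZMod 2) : G.W := if e = 0 then 1 else G.g o

variable {G o}

theorem yp_zero : yp G o 0 = 1 := by unfold yp; rw [if_pos rfl]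
theorem yp_one : yp G o 1 = G.g o := by unfold yp; rw [if_neg one_ne_zero]

theorem yp_add (a b : ZMod 2) : yp G o (a + b) = yp G o a * yp G o b := by
  rcases zmod2_cases a with rfl | rfl <;> rcases zmod2_cases b with rfl | rfl
  · rw [add_zero, yp_zero, one_mul]
  · rw [zero_add, yp_zero, one_mul]
  · rw [add_zero, yp_zero, mul_one]
  · rw [tw, yp_zero, yp_one, gg]

theorem yp_comm_g {s : V} (h : G.adj o s) (e : ZMod 2) : yp G o e * G.g s = G.g s * yp G o e := by
  rcases zmod2_cases e with rfl | rfl
  · rw [yp_zero, one_mul, mul_one]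
  · rw [yp_one, gcomm h]

variable [DecidableEq V]

/-- cliques whose elements commute with the base generator -/
def T1 (G : RA V) (o : V) (σ : Finset V) : Prop := ∀ t ∈ σ, G.adj o t

theorem yp_comm {σ : Finset V} (h : T1 G o σ) (hσ : Cq G σ) (e : ZMod 2) :
    cl G σ * yp G o e = yp G o e * cl G σ := by
  rcases zmod2_cases e with rfl | rfl
  · rw [yp_zero, one_mul, mul_one]
  · rw [yp_one, cl_comm (fun s hs _ => h s hs) hσ]

variable (G o)

/-- letters -/
def Ok (x : Finset V × ZMod 2) : Prop :=
  Cq G x.1 ∧ x.1.Nonempty ∧ o ∉ x.1 ∧ (T1 G o x.1 → x.2 = 0)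

/-- the alphabet -/
abbrev X : Type := {x : Finset V × ZMod 2 // Ok G o x}

/-- the even element given by a clique and a state -/
noncomputable def EE (e : ZMod 2) (σ : Finset V) : G.W :=
  yp G o e * cl G σ * yp G o (e + (σ.card : ZMod 2))

/-- values of letters -/
noncomputable def pe (x : X G o) : G.W := EE G o x.1.2 x.1.1

open Classical in
/-- the word with at most one letter for a clique and a state -/
noncomputable def mk (e : ZMod 2) (σ : Finset V) : List (X G o) :=
  if h : Ok G o (σ, if T1 G o σ then 0 else e) then [⟨_, h⟩] else []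

variable {G o}

open Classical in
theorem val_mk {e : ZMod 2} {σ : Finset V} (hσ : Cq G σ) (ho : o ∉ σ) :
    val (pe G o) (mk G o e σ) = EE G o e σ := by
  unfold mk
  rcases σ.eq_empty_or_nonempty with rfl | hne
  · rw [dif_neg (fun h => by simpa using h.2.1)]
    unfold EE
    rw [val_nil, cl_empty, mul_one, Finset.card_empty, Nat.cast_zero, add_zero, ← yp_add, tw,
      yp_zero]
  · by_cases h1 : T1 G o σ
    · have h2 : Ok G o (σ, if T1 G o σ then 0 else e) := ⟨hσ, hne, ho, fun _ => if_pos h1⟩
      rw [dif_pos h2, val_one]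
      unfold pe EE
      simp only [if_pos h1]
      rw [yp_zero, one_mul, zero_add, ← yp_comm h1 hσ, mul_assoc, ← yp_add, ← add_assoc, tw,
        zero_add]
    · have h2 : Ok G o (σ, if T1 G o σ then 0 else e) := ⟨hσ, hne, ho, fun h => absurd h h1⟩
      rw [dif_pos h2, val_one]
      unfold pe
      simp only [if_neg h1]

open Classical in
/-- the state before a pair of letters -/
noncomputable def dl (x x' : X G o) : ZMod 2 :=
  if T1 G o x'.1.1 then x.1.2 else if T1 G o x.1.1 then x'.1.2 + (x.1.1.card : ZMod 2) else x.1.2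

open Classical in
/-- whether the base generator stands between two letters -/
noncomputable def mm (x x' : X G o) : ZMod 2 :=
  if T1 G o x'.1.1 then 0 else if T1 G o x.1.1 then 0 else x.1.2 + (x.1.1.card : ZMod 2) + x'.1.2

theorem val_pair (x x' : X G o) : val (pe G o) [x, x'] =
    yp G o (dl x x') * cl G x.1.1 * yp G o (mm x x') * cl G x'.1.1 *
      yp G o (dl x x' + (x.1.1.card : ZMod 2) + mm x x' + (x'.1.1.card : ZMod 2)) := by
  rw [val_cons, val_one]
  unfold dl mm pe EE
  obtain ⟨⟨σ, e⟩, h1, h2, h3, h4⟩ := x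
  obtain ⟨⟨τ, e'⟩, g1, g2, g3, g4⟩ := x'
  simp only at h1 h2 h3 h4 g1 g2 g3 g4 ⊢
  by_cases ht' : T1 G o τ
  · rw [if_pos ht', if_pos ht', g4 ht', yp_zero, one_mul, zero_add, mul_one, add_zero]
    have k1 := yp_comm ht' g1 (e + (σ.card : ZMod 2))
    calc yp G o e * cl G σ * yp G o (e + (σ.card : ZMod 2)) * (cl G τ * yp G o (τ.card : ZMod 2))
        = yp G o e * cl G σ * (yp G o (e + (σ.card : ZMod 2)) * cl G τ) *
          yp G o (τ.card : ZMod 2) := by group
      _ = yp G o e * cl G σ * (cl G τ * yp G o (e + (σ.card : ZMod 2))) *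
          yp G o (τ.card : ZMod 2) := by rw [k1]
      _ = yp G o e * cl G σ * cl G τ * (yp G o (e + (σ.card : ZMod 2)) *
          yp G o (τ.card : ZMod 2)) := by group
      _ = _ := by rw [← yp_add]
  · by_cases ht : T1 G o σ
    · rw [if_neg ht', if_pos ht, if_neg ht', if_pos ht, h4 ht, yp_zero, one_mul, zero_add, mul_one,
        add_zero]
      have k1 := yp_comm ht h1 ((σ.card : ZMod 2) + e')
      have k2 : e' + (σ.card : ZMod 2) + (σ.card : ZMod 2) + (τ.card : ZMod 2) =
          e' + (τ.card : ZMod 2) := by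
        rw [add_assoc e', tw, add_zero]
      rw [k2, add_comm e' (σ.card : ZMod 2), ← k1, yp_add (σ.card : ZMod 2) e']
      group
    · rw [if_neg ht', if_neg ht, if_neg ht', if_neg ht]
      have k2 : e + (σ.card : ZMod 2) + (e + (σ.card : ZMod 2) + e') + (τ.card : ZMod 2) =
          e' + (τ.card : ZMod 2) := by
        rw [← add_assoc, tw, zero_add]
      rw [k2, yp_add (e + (σ.card : ZMod 2)) e']
      group

theorem sound {x x' : X G o} {σ' τ' : Finset V} (h1 : Cq G σ') (h2 : o ∉ σ') (h3 : Cq G τ')
    (h4 : o ∉ τ') (h5 : (σ'.card : ZMod 2) = (x.1.1.card : ZMod 2) + 1)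
    (h6 : (τ'.card : ZMod 2) = (x'.1.1.card : ZMod 2) + 1)
    (h7 : cl G x.1.1 * yp G o (mm x x') * cl G x'.1.1 = cl G σ' * yp G o (mm x x') * cl G τ') :
    val (pe G o) [x, x'] = val (pe G o) (mk G o (dl x x') σ' ++
      mk G o (dl x x' + (x.1.1.card : ZMod 2) + 1 + mm x x') τ') := by
  rw [val_pair, val_append, val_mk h1 h2, val_mk h3 h4]
  unfold EE
  set D := dl x x'
  set M := mm x x'
  rw [h5, h6]
  have k1 : yp G o M = yp G o (D + ((x.1.1.card : ZMod 2) + 1)) *
      yp G o (D + (x.1.1.card : ZMod 2) + 1 + M) := by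
    rw [← yp_add]
    congr 1
    have := tw (D + (x.1.1.card : ZMod 2) + 1)
    linear_combination -this
  have k2 : D + (x.1.1.card : ZMod 2) + M + (x'.1.1.card : ZMod 2) =
      D + (x.1.1.card : ZMod 2) + 1 + M + ((x'.1.1.card : ZMod 2) + 1) := by
    have := tw (1 : ZMod 2)
    linear_combination -this
  rw [← k2]
  calc yp G o D * cl G x.1.1 * yp G o M * cl G x'.1.1 *
        yp G o (D + (x.1.1.card : ZMod 2) + M + (x'.1.1.card : ZMod 2))
      = yp G o D * (cl G x.1.1 * yp G o M * cl G x'.1.1) *
        yp G o (D + (x.1.1.card : ZMod 2) + M + (x'.1.1.card : ZMod 2)) := by group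
    _ = yp G o D * (cl G σ' * yp G o M * cl G τ') *
        yp G o (D + (x.1.1.card : ZMod 2) + M + (x'.1.1.card : ZMod 2)) := by rw [h7]
    _ = yp G o D * (cl G σ' * (yp G o (D + ((x.1.1.card : ZMod 2) + 1)) *
      yp G o (D + (x.1.1.card : ZMod 2) + 1 + M)) * cl G τ') *
        yp G o (D + (x.1.1.card : ZMod 2) + M + (x'.1.1.card : ZMod 2)) := by rw [← k1]
    _ = _ := by group

/-- right sides of the rules -/
noncomputable def rhs (x x' : X G o) (s : V) (b : Bool) : List (X G o) :=
  mk G o (dl x x') (if b then insert s x.1.1 else x.1.1.erase s) ++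
    mk G o (dl x x' + (x.1.1.card : ZMod 2) + 1 + mm x x') (x'.1.1.erase s)

variable (G o) in
/-- the rules -/
def RE : Set (List (X G o) × List (X G o)) :=
  {p | ∃ (x x' : X G o) (s : V) (b : Bool), s ∈ x'.1.1 ∧ (mm x x' = 0 ∨ G.adj o s) ∧
    (if b then s ∉ x.1.1 ∧ ∀ t ∈ x.1.1, G.adj s t else s ∈ x.1.1) ∧ p = ([x, x'], rhs x x' s b)}

theorem RE_finite [Finite V] : (RE G o).Finite := by
  have : Finite (Finset V) := by
    have := Fintype.ofFinite V
    infer_instance
  refine (Set.finite_range (fun q : X G o × X G o × V × Bool =>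
    (([q.1, q.2.1] : List (X G o)), rhs q.1 q.2.1 q.2.2.1 q.2.2.2))).subset ?_
  rintro p ⟨x, x', s, b, _, _, _, rfl⟩
  exact ⟨(x, x', s, b), rfl⟩

/-- the interpretation -/
def fe (x : X G o) (n : ℕ) : ℕ := 2 * n + x.1.1.card

open Classical in
theorem mk_foldr (e : ZMod 2) (σ : Finset V) (n : ℕ) :
    (mk G o e σ).foldr fe n ≤ 2 * n + σ.card := by
  unfold mk
  by_cases h : Ok G o (σ, if T1 G o σ then 0 else e)
  · rw [dif_pos h]
    exact le_rfl
  · rw [dif_neg h]
    show n ≤ _
    omega

theorem RE_sound : ∀ p ∈ RE G o, val (pe G o) p.1 = val (pe G o) p.2 ∧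
    ∀ n, p.2.foldr fe n < p.1.foldr fe n := by
  rintro p ⟨x, x', s, b, hs, hm, hb, rfl⟩
  obtain ⟨h1, h2, h3, h4⟩ := x.2
  obtain ⟨g1, g2, g3, g4⟩ := x'.2
  have hso : s ≠ o := by rintro rfl; exact g3 hs
  have hcτ : (x'.1.1.erase s).card + 1 = x'.1.1.card := Finset.card_erase_add_one hs
  have hτ : ((x'.1.1.erase s).card : ZMod 2) = (x'.1.1.card : ZMod 2) + 1 := by
    rw [← hcτ, Nat.cast_add, Nat.cast_one, add_assoc, tw, add_zero]
  have hys : yp G o (mm x x') * G.g s = G.g s * yp G o (mm x x') := by
    rcases hm with hm | hm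
    · rw [hm, yp_zero, one_mul, mul_one]
    · exact yp_comm_g hm _
  have hτc := g1.mono (Finset.erase_subset s _)
  have hτo : o ∉ x'.1.1.erase s := fun h => g3 (Finset.mem_of_mem_erase h)
  constructor
  · cases b
    · simp only [Bool.false_eq_true, if_false] at hb
      unfold rhs
      simp only [Bool.false_eq_true, if_false]
      refine sound (h1.mono (Finset.erase_subset s _)) (fun h => h3 (Finset.mem_of_mem_erase h))
        hτc hτo ?_ hτ ?_
      · rw [← Finset.card_erase_add_one hb, Nat.cast_add, Nat.cast_one, add_assoc, tw, add_zero]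
      · conv_lhs => rw [cl_erase hs g1, cl_erase' hb h1]
        calc cl G (x.1.1.erase s) * G.g s * yp G o (mm x x') * (G.g s * cl G (x'.1.1.erase s))
            = cl G (x.1.1.erase s) * G.g s * (yp G o (mm x x') * G.g s) *
              cl G (x'.1.1.erase s) := by group
          _ = cl G (x.1.1.erase s) * G.g s * (G.g s * yp G o (mm x x')) *
              cl G (x'.1.1.erase s) := by rw [hys]
          _ = cl G (x.1.1.erase s) * (G.g s * G.g s) * yp G o (mm x x') *
              cl G (x'.1.1.erase s) := by group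
          _ = _ := by rw [gg, mul_one]
    · simp only [if_true] at hb
      unfold rhs
      simp only [if_true]
      have hins : Cq G (insert s x.1.1) := by
        intro a ha b' hb' hab
        rcases Finset.mem_insert.1 ha with e1 | ha2
        · rcases Finset.mem_insert.1 hb' with e2 | hb2
          · exact absurd (e1.trans e2.symm) hab
          · rw [e1]; exact hb.2 _ hb2
        · rcases Finset.mem_insert.1 hb' with e2 | hb2
          · rw [e2]; exact G.symm (hb.2 _ ha2)
          · exact h1 a ha2 b' hb2 hab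
      refine sound hins ?_ hτc hτo ?_ hτ ?_
      · rw [Finset.mem_insert]
        rintro (h | h)
        · exact hso h.symm
        · exact h3 h
      · rw [Finset.card_insert_of_notMem hb.1, Nat.cast_add, Nat.cast_one]
      · rw [cl_insert' hb.1 hins]
        conv_lhs => rw [cl_erase hs g1]
        calc cl G x.1.1 * yp G o (mm x x') * (G.g s * cl G (x'.1.1.erase s))
            = cl G x.1.1 * (yp G o (mm x x') * G.g s) * cl G (x'.1.1.erase s) := by group
          _ = cl G x.1.1 * (G.g s * yp G o (mm x x')) * cl G (x'.1.1.erase s) := by rw [hys]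
          _ = _ := by group
  · intro n
    simp only
    unfold rhs
    rw [List.foldr_append]
    have k1 := mk_foldr (G := G) (o := o) (dl x x' + (x.1.1.card : ZMod 2) + 1 + mm x x')
      (x'.1.1.erase s) n
    have k2 := mk_foldr (G := G) (o := o) (dl x x') (if b then insert s x.1.1 else x.1.1.erase s)
      ((mk G o (dl x x' + (x.1.1.card : ZMod 2) + 1 + mm x x') (x'.1.1.erase s)).foldr fe n)
    have k3 : (if b then insert s x.1.1 else x.1.1.erase s).card ≤ x.1.1.card + 1 := by
      cases b
      · simp only [Bool.false_eq_true, if_false]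
        exact (Finset.card_erase_le).trans (Nat.le_succ _)
      · simp only [if_true]
        exact Finset.card_insert_le _ _
    have k4 : ([x, x'] : List (X G o)).foldr fe n = 2 * (2 * n + x'.1.1.card) + x.1.1.card := rfl
    rw [k4]
    omega

theorem irr_pair {x x' : X G o} {u : List (X G o)} (h : Irr (RE G o) (x :: x' :: u)) {s : V}
    (hs : s ∈ x'.1.1) (hm : mm x x' = 0 ∨ G.adj o s) :
    s ∉ x.1.1 ∧ ∃ t ∈ x.1.1, t ≠ s ∧ ¬ G.adj s t := by
  have h1 : s ∉ x.1.1 := by
    intro h1
    refine h [] [x, x'] (rhs x x' s false) u ⟨x, x', s, false, hs, hm, ?_, rfl⟩ rfl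
    simpa using h1
  refine ⟨h1, ?_⟩
  by_contra h2
  push Not at h2
  refine h [] [x, x'] (rhs x x' s true) u ⟨x, x', s, true, hs, hm, ?_, rfl⟩ rfl
  simp only [if_true]
  exact ⟨h1, fun t ht => h2 t ht (by rintro rfl; exact h1 ht)⟩

end


section
variable {V : Type} {G : RA V} {o : V} [DecidableEq V]

open Classical in
/-- the state at the beginning of a word -/
noncomputable def eta : List (X G o) → ZMod 2
  | [] => 0
  | x :: u => if T1 G o x.1.1 then (x.1.1.card : ZMod 2) + eta u else x.1.2

theorem eta_pos {x : X G o} (h : T1 G o x.1.1) (u : List (X G o)) :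
    eta (x :: u) = (x.1.1.card : ZMod 2) + eta u := if_pos h

theorem eta_neg {x : X G o} (h : ¬ T1 G o x.1.1) (u : List (X G o)) :
    eta (x :: u) = x.1.2 := if_neg h

open Classical in
/-- whether the base generator stands after the first letter -/
noncomputable def th (x : X G o) (u : List (X G o)) : ZMod 2 :=
  if T1 G o x.1.1 then 0 else x.1.2 + (x.1.1.card : ZMod 2) + eta u

open Classical in
/-- the start position -/
noncomputable def p0 (o : V) : V → ℤ := fun t => if t = o then 0 else 1

/-- positions -/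
noncomputable def qq : List (X G o) → V → ℤ
  | [] => p0 o
  | x :: u => act G (cl G x.1.1) (act G (yp G o (th x u)) (qq u))

/-- first cliques -/
def Hd : List (X G o) → Finset V
  | [] => ∅
  | x :: _ => x.1.1

theorem fire_zero {s : V} {p : V → ℤ} (h : p s = 0) : fire G s p = p := by
  funext t
  by_cases h1 : t = s
  · subst h1
    rw [fire_self, h, neg_zero]
  · by_cases h2 : G.adj s t
    · rw [fire_adj h2]
    · rw [fire_not h1 h2, h, mul_zero, add_zero]

theorem act_yp_one (p : V → ℤ) : act G (yp G o 1) p = fire G o p := by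
  rw [yp_one, act_g]

theorem act_yp_zero (p : V → ℤ) : act G (yp G o 0) p = p := by
  rw [yp_zero, map_one]
  rfl

theorem act_val (u : List (X G o)) :
    act G (val (pe G o) u) (p0 o) = act G (yp G o (eta u)) (qq u) := by
  induction u with
  | nil =>
    rw [val_nil, map_one]
    show (p0 o : V → ℤ) = act G (yp G o 0) (p0 o)
    rw [act_yp_zero]
  | cons x u ih =>
    rw [val_cons, map_mul, Equiv.Perm.mul_apply, ih]
    show act G (pe G o x) (act G (yp G o (eta u)) (qq u)) =
      act G (yp G o (eta (x :: u))) (act G (cl G x.1.1) (act G (yp G o (th x u)) (qq u)))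
    rw [← Equiv.Perm.mul_apply, ← map_mul, ← Equiv.Perm.mul_apply, ← Equiv.Perm.mul_apply,
      ← map_mul, ← map_mul]
    congr 2
    obtain ⟨h1, h2, h3, h4⟩ := x.2
    unfold pe EE th
    by_cases ht : T1 G o x.1.1
    · rw [eta_pos ht, if_pos ht, h4 ht, yp_zero, one_mul, zero_add, mul_one, mul_assoc, ← yp_add,
        yp_comm ht h1]
    · rw [eta_neg ht, if_neg ht, mul_assoc, ← yp_add]

theorem Hd_o (u : List (X G o)) : o ∉ Hd u := by
  cases u with
  | nil => simp [Hd]
  | cons x u => exact x.2.2.2.1

theorem inv_qq (u : List (X G o)) (h : Irr (RE G o) u) :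
    Inv G o (Hd u) (qq u) ∧
      ∀ x u', u = x :: u' → ¬ T1 G o x.1.1 → 0 < qq u o := by
  induction u with
  | nil =>
    refine ⟨⟨?_, ?_, ?_, ?_⟩, ?_⟩
    · intro s hs
      simp [Hd] at hs
    · intro s _ hs
      show 0 < p0 o s
      unfold p0
      rw [if_neg hs]
      exact one_pos
    · show 0 ≤ p0 o o
      unfold p0
      rw [if_pos rfl]
    · intro s hs
      simp [Hd] at hs
    · intro x u' h1
      cases h1
  | cons x u ih =>
    have hu : Irr (RE G o) u := by
      intro p l r q h1 h2
      exact h (x :: p) l r q h1 (by rw [h2]; rfl)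
    obtain ⟨hI, _⟩ := ih hu
    obtain ⟨x1, x2, x3, x4⟩ := x.2
    have key : Inv G o x.1.1 (qq (x :: u)) ∧ (¬ (∀ t ∈ x.1.1, G.adj o t) → 0 < qq (x :: u) o) := by
      show Inv G o x.1.1 (act G (cl G x.1.1) (act G (yp G o (th x u)) (qq u))) ∧
        (¬ (∀ t ∈ x.1.1, G.adj o t) →
          0 < act G (cl G x.1.1) (act G (yp G o (th x u)) (qq u)) o)
      rcases zmod2_cases (th x u) with hθ | hθ
      · rw [hθ, act_yp_zero]
        refine step2 (step1a hI) x1 x3 ?_ (fun _ => hI.nn)
        intro s hs
        cases u with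
        | nil => simp [Hd] at hs
        | cons x' u' =>
          refine irr_pair h hs (Or.inl ?_)
          unfold mm
          unfold th at hθ
          by_cases ht' : T1 G o x'.1.1
          · rw [if_pos ht']
          · rw [if_neg ht']
            by_cases ht : T1 G o x.1.1
            · rw [if_pos ht]
            · rw [if_neg ht]
              rwa [if_neg ht, eta_neg ht'] at hθ
      · rw [hθ, act_yp_one]
        refine step2 (step1b hI (Hd_o u)) x1 x3 ?_ ?_
        · rintro s ⟨hs, hos⟩
          cases u with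
          | nil => simp [Hd] at hs
          | cons x' u' => exact irr_pair h hs (Or.inr hos)
        · intro ht
          exfalso
          have ht2 : T1 G o x.1.1 := ht
          unfold th at hθ
          rw [if_pos ht2] at hθ
          exact zero_ne_one hθ
    refine ⟨key.1, ?_⟩
    rintro y u' hy hT
    cases hy
    exact key.2 hT

theorem det {u v : List (X G o)} (hu : Irr (RE G o) u) (hv : Irr (RE G o) v)
    (h : val (pe G o) u = val (pe G o) v) : qq u = qq v ∧ (eta u = eta v ∨ qq u o = 0) := by
  have h1 : act G (yp G o (eta u)) (qq u) = act G (yp G o (eta v)) (qq v) := by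
    rw [← act_val, ← act_val, h]
  have hu1 := (inv_qq u hu).1.nn
  have hv1 := (inv_qq v hv).1.nn
  rcases zmod2_cases (eta u) with a | a <;> rcases zmod2_cases (eta v) with b | b
  · rw [a, b, act_yp_zero, act_yp_zero] at h1
    exact ⟨h1, Or.inl (a.trans b.symm)⟩
  · rw [a, b, act_yp_zero, act_yp_one] at h1
    have h2 := congrFun h1 o
    rw [fire_self] at h2
    have h3 : qq v o = 0 := by omega
    rw [fire_zero h3] at h1
    exact ⟨h1, Or.inr (by rw [h1, h3])⟩
  · rw [a, b, act_yp_zero, act_yp_one] at h1
    have h2 := congrFun h1 o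
    rw [fire_self] at h2
    have h3 : qq u o = 0 := by omega
    rw [fire_zero h3] at h1
    exact ⟨h1, Or.inr h3⟩
  · rw [a, b, act_yp_one, act_yp_one] at h1
    have h2 := congrArg (fire G o) h1
    rw [fire_fire, fire_fire] at h2
    exact ⟨h2, Or.inl (a.trans b.symm)⟩

theorem det_Hd {u v : List (X G o)} (hu : Irr (RE G o) u) (hv : Irr (RE G o) v)
    (h : qq u = qq v) : Hd u = Hd v := by
  have key : ∀ {u v : List (X G o)}, Irr (RE G o) u → Irr (RE G o) v → qq u = qq v →
      Hd u ⊆ Hd v := by
    intro u v hu hv h s hs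
    by_contra h1
    have h2 := (inv_qq u hu).1.neg s hs
    have h3 := (inv_qq v hv).1.pos s h1 (by rintro rfl; exact Hd_o u hs)
    rw [h] at h2
    omega
  exact (key hu hv h).antisymm (key hv hu h.symm)

theorem inj_irr (u : List (X G o)) : ∀ v : List (X G o), Irr (RE G o) u → Irr (RE G o) v →
    val (pe G o) u = val (pe G o) v → u = v := by
  induction u with
  | nil =>
    intro v hu hv h
    obtain ⟨h1, _⟩ := det hu hv h
    have h2 := det_Hd hu hv h1
    cases v with
    | nil => rfl
    | cons x v =>
      exfalso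
      have h3 := x.2.2.1
      rw [show x.1.1 = ∅ from h2.symm] at h3
      exact Finset.not_nonempty_empty h3
  | cons x u ih =>
    intro v hu hv h
    obtain ⟨h1, h4⟩ := det hu hv h
    have h2 := det_Hd hu hv h1
    cases v with
    | nil =>
      exfalso
      have h3 := x.2.2.1
      rw [show x.1.1 = ∅ from h2] at h3
      exact Finset.not_nonempty_empty h3
    | cons y v =>
      have h5 : x.1.1 = y.1.1 := h2
      have h6 : x.1.2 = y.1.2 := by
        by_cases ht : T1 G o x.1.1
        · rw [x.2.2.2.2 ht, y.2.2.2.2 (by rw [← h5]; exact ht)]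
        · have ht' : ¬ T1 G o y.1.1 := by rw [← h5]; exact ht
          rcases h4 with h4 | h4
          · rwa [eta_neg ht, eta_neg ht'] at h4
          · exfalso
            have := (inv_qq _ hu).2 x u rfl ht
            omega
      have h7 : x = y := Subtype.ext (Prod.ext h5 h6)
      subst h7
      rw [val_cons, val_cons] at h
      have hu' : Irr (RE G o) u := fun p l r q g1 g2 => hu (x :: p) l r q g1 (by rw [g2]; rfl)
      have hv' : Irr (RE G o) v := fun p l r q g1 g2 => hv (x :: p) l r q g1 (by rw [g2]; rfl)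
      rw [ih v hu' hv' (mul_left_cancel h)]

variable (G) in
/-- parity -/
noncomputable def parE : G.W →* Multiplicative (ZMod 2) :=
  RA.hom (fun _ => Multiplicative.ofAdd 1) (fun _ => rfl) (fun _ _ _ => rfl)

theorem parE_ev (m : List V) : parE G (G.ev m) = Multiplicative.ofAdd (m.length : ZMod 2) := by
  induction m with
  | nil => simp
  | cons a m ih =>
    rw [ev_cons, map_mul, ih, parE, RA.hom_g, ← ofAdd_add, List.length_cons]
    push_cast
    rw [add_comm]

theorem cl_singleton (a : V) : cl G {a} = G.g a := by simp [cl]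

theorem all_even (m : List V) : ∀ e : ZMod 2, ∃ u, val (pe G o) u =
    yp G o e * G.ev m * yp G o (e + (m.length : ZMod 2)) := by
  induction m with
  | nil =>
    intro e
    refine ⟨[], ?_⟩
    rw [val_nil, ev_nil, mul_one, List.length_nil, Nat.cast_zero, add_zero, ← yp_add, tw, yp_zero]
  | cons a m ih =>
    intro e
    obtain ⟨u, hu⟩ := ih (e + 1)
    have k2 : e + ((a :: m).length : ZMod 2) = e + 1 + (m.length : ZMod 2) := by
      rw [List.length_cons]
      push_cast
      ring
    rw [k2, ev_cons]
    by_cases ha : a = o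
    · refine ⟨u, ?_⟩
      rw [hu, ha, ← yp_one, ← mul_assoc (yp G o e), ← yp_add]
    · refine ⟨mk G o e {a} ++ u, ?_⟩
      rw [val_append, val_mk (by
        intro s hs t ht hst
        rw [Finset.mem_singleton] at hs ht
        exact absurd (hs.trans ht.symm) hst) (by
        rw [Finset.mem_singleton]
        exact fun h => ha h.symm), hu]
      unfold EE
      rw [cl_singleton, Finset.card_singleton, Nat.cast_one]
      have k3 : yp G o (e + 1) * yp G o (e + 1) = 1 := by rw [← yp_add, tw, yp_zero]
      calc yp G o e * G.g a * yp G o (e + 1) *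
            (yp G o (e + 1) * G.ev m * yp G o (e + 1 + (m.length : ZMod 2)))
          = yp G o e * G.g a * (yp G o (e + 1) * yp G o (e + 1)) * G.ev m *
            yp G o (e + 1 + (m.length : ZMod 2)) := by group
        _ = _ := by rw [k3]; group

theorem parE_yp (e : ZMod 2) : parE G (yp G o e) = Multiplicative.ofAdd e := by
  rcases zmod2_cases e with rfl | rfl
  · rw [yp_zero, map_one]; rfl
  · rw [yp_one]
    unfold parE
    rw [RA.hom_g]

theorem parE_cl (σ : Finset V) : parE G (cl G σ) = Multiplicative.ofAdd (σ.card : ZMod 2) := by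
  have h : cl G σ = G.ev σ.toList := by
    unfold cl
    generalize σ.toList = l
    induction l with
    | nil => rfl
    | cons a l ih => rw [List.map_cons, List.prod_cons, ih, ev_cons]
  rw [h, parE_ev, Finset.length_toList]

theorem good_even [Finite V] (G : RA V) (o : V) : Good (parE G).ker := by
  have : Finite (Finset V) := by
    have := Fintype.ofFinite V
    infer_instance
  refine ⟨X G o, RE G o, pe G o, fe, inferInstance, RE_finite, ?_, ?_, RE_sound, ?_, ?_⟩
  · intro x a b hab
    show 2 * a + _ < 2 * b + _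
    omega
  · intro x n
    show n < 2 * n + x.1.1.card
    have := Finset.card_pos.2 x.2.2.1
    omega
  · intro u v hu hv h
    exact inj_irr u v hu hv h
  · intro g
    rw [MonoidHom.mem_ker]
    constructor
    · intro hg
      obtain ⟨m, _, rfl⟩ := exists_red g
      obtain ⟨u, hu⟩ := all_even (G := G) (o := o) m 0
      refine ⟨u, ?_⟩
      rw [parE_ev] at hg
      have h1 : (m.length : ZMod 2) = 0 := hg
      rw [hu, h1, add_zero, yp_zero, one_mul, mul_one]
    · rintro ⟨u, rfl⟩
      induction u with
      | nil => rw [val_nil, map_one]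
      | cons x u ih =>
        rw [val_cons, map_mul, ih, mul_one]
        unfold pe EE
        rw [map_mul, map_mul, parE_yp, parE_yp, parE_cl, ← ofAdd_add, ← ofAdd_add]
        have h1 : x.1.2 + (x.1.1.card : ZMod 2) + (x.1.2 + (x.1.1.card : ZMod 2)) = 0 := tw _
        rw [h1]
        rfl

end

end Pool.Agent.Helper2CR
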