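import Pool.Agent.Helper2CR.Basic

/-!
Extensions: from a complete rewriting system of a subgroup `K` to one of a larger subgroup.
-/

set_option autoImplicit false

namespace Pool.Agent.Helper2CR

section embed
variable {A B : Type}

/-- words in the first alphabet -/
def iA (u : List A) : List (A ⊕ B) := u.map Sum.inl
/-- words in the second alphabet -/
def iB (u : List B) : List (A ⊕ B) := u.map Sum.inr

theorem iA_append (u v : List A) : (iA (u ++ v) : List (A ⊕ B)) = iA u ++ iA v := by
  simp [iA]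
theorem iB_append (u v : List B) : (iB (u ++ v) : List (A ⊕ B)) = iB u ++ iB v := by
  simp [iB]

theorem foldr_iA (f : A → ℕ → ℕ) (g : ℕ → ℕ) (u : List A) (x : ℕ) :
    (iA u : List (A ⊕ B)).foldr (Sum.elim f fun _ => g) x = u.foldr f x := by
  unfold iA
  rw [List.foldr_map]
  rfl

theorem foldr_iB (f : A → ℕ → ℕ) (g : ℕ → ℕ) (u : List B) (x : ℕ) :
    (iB u : List (A ⊕ B)).foldr (Sum.elim f fun _ => g) x = g^[u.length] x := by
  unfold iB
  rw [List.foldr_map]
  induction u with
  | nil => rfl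
  | cons b u ih =>
    rw [List.foldr_cons, ih, List.length_cons, Function.iterate_succ_apply']
    rfl

variable {G : Type} [Group G]

theorem val_iA (π : A → G) (s : B → G) (u : List A) :
    val (Sum.elim π s) (iA u : List (A ⊕ B)) = val π u := by
  unfold val iA
  rw [List.map_map]
  rfl

theorem val_iB (π : A → G) (s : B → G) (u : List B) :
    val (Sum.elim π s) (iB u : List (A ⊕ B)) = val s u := by
  unfold val iB
  rw [List.map_map]
  rfl

end embed

theorem le_iter {g : ℕ → ℕ} (hg : ∀ x, x < g x) (d x : ℕ) : x ≤ g^[d] x := by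
  induction d with
  | zero => exact le_rfl
  | succ d ih =>
    rw [Function.iterate_succ_apply']
    exact ih.trans (hg _).le

theorem iter_le {g : ℕ → ℕ} (hg : ∀ x, x < g x) {m n : ℕ} (h : m ≤ n) (x : ℕ) :
    g^[m] x ≤ g^[n] x := by
  obtain ⟨d, rfl⟩ := Nat.exists_eq_add_of_le h
  rw [add_comm, Function.iterate_add_apply]
  exact le_iter hg d _

/-- a fast growing function -/
def grow (Φ : ℕ → ℕ) : ℕ → ℕ
  | 0 => Φ 0 + 1
  | n + 1 => Φ (grow Φ n) + Φ (n + 1) + 1

theorem grow_gt (Φ : ℕ → ℕ) (y : ℕ) : Φ y < grow Φ y := by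
  cases y with
  | zero => exact Nat.lt_succ_self _
  | succ n => show Φ (n + 1) < Φ (grow Φ n) + Φ (n + 1) + 1; omega

theorem grow_succ (Φ : ℕ → ℕ) (y : ℕ) : Φ (grow Φ y) < grow Φ (y + 1) := by
  show Φ (grow Φ y) < Φ (grow Φ y) + Φ (y + 1) + 1
  omega

theorem extend {G : Type} [Group G] {K K' : Subgroup G} (hK : Good K) {B : Type} [Finite B]
    (s : B → G) (hn : ∀ b, ∀ k ∈ K, s b * k * (s b)⁻¹ ∈ K)
    (RB : Set (List B × List B)) (hRB : RB.Finite)
    (hrule : ∀ p ∈ RB, val s p.1 * (val s p.2)⁻¹ ∈ K)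
    (hlen : ∀ p ∈ RB, p.2.length < p.1.length)
    (hinj : ∀ u v : List B, Irr RB u → Irr RB v → val s u * (val s v)⁻¹ ∈ K → u = v)
    (hKK : K ≤ K') (hs : ∀ b, s b ∈ K')
    (hall : ∀ g ∈ K', ∃ k ∈ K, ∃ u : List B, g = k * val s u) : Good K' := by
  classical
  obtain ⟨A, R, π, f, hA, hRf, hf, hx, hR, hi, hm⟩ := hK
  have hπ : ∀ a, π a ∈ K := fun a => (hm _).2 ⟨[a], val_one π a⟩
  have hc : ∀ b a, ∃ u, val π u = s b * π a * (s b)⁻¹ := fun b a => (hm _).1 (hn b _ (hπ a))
  choose c hc using hc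
  have hw : ∀ p : List B × List B, ∃ u : List A,
      p ∈ RB → val π u = val s p.1 * (val s p.2)⁻¹ := by
    intro p
    by_cases hp : p ∈ RB
    · obtain ⟨u, hu⟩ := (hm _).1 (hrule p hp)
      exact ⟨u, fun _ => hu⟩
    · exact ⟨[], fun h => absurd h hp⟩
  choose w hw using hw
  have hWf : (Set.range (fun ba : B × A => c ba.1 ba.2) ∪ w '' RB).Finite :=
    (Set.finite_range _).union (hRB.image _)
  set W := hWf.toFinset with hWdef
  have hcW : ∀ b a, c b a ∈ W := by
    intro b a
    rw [hWdef, Set.Finite.mem_toFinset]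
    exact Or.inl ⟨(b, a), rfl⟩
  have hwW : ∀ p ∈ RB, w p ∈ W := by
    intro p hp
    rw [hWdef, Set.Finite.mem_toFinset]
    exact Or.inr ⟨p, hp, rfl⟩
  set Φ : ℕ → ℕ := fun y => y + ∑ u ∈ W, u.foldr f y with hΦ
  have hΦ1 : ∀ u ∈ W, ∀ y, u.foldr f y ≤ Φ y := by
    intro u hu y
    have := Finset.single_le_sum (f := fun u : List A => u.foldr f y) (fun _ _ => Nat.zero_le _) hu
    exact this.trans (Nat.le_add_left _ _)
  have hΦ2 : ∀ y, y ≤ Φ y := fun y => Nat.le_add_right _ _
  set g := grow Φ with hg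
  have hgm : StrictMono g := strictMono_nat_of_lt_succ fun n =>
    lt_of_le_of_lt (hΦ2 _) (grow_succ Φ n)
  have hgx : ∀ x, x < g x := fun x => lt_of_le_of_lt (hΦ2 x) (grow_gt Φ x)
  set R' : Set (List (A ⊕ B) × List (A ⊕ B)) :=
    (fun p : List A × List A => (iA p.1, iA p.2)) '' R ∪
    (Set.range (fun ba : B × A => (([Sum.inr ba.1, Sum.inl ba.2] : List (A ⊕ B)),
      (iA (c ba.1 ba.2) ++ [Sum.inr ba.1] : List (A ⊕ B)))) ∪
    (fun p : List B × List B => (iB p.1, iA (w p) ++ iB p.2)) '' RB) with hR'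
  have hirA : ∀ (α : List A) (β : List B), Irr R' (iA α ++ iB β) → Irr R α := by
    intro α β h p l r q h1 h2
    refine h (iA p) (iA l) (iA r) (iA q ++ iB β) (Or.inl ⟨(l, r), h1, rfl⟩) ?_
    rw [h2, iA_append, iA_append]
    simp only [List.append_assoc]
  have hirB : ∀ (α : List A) (β : List B), Irr R' (iA α ++ iB β) → Irr RB β := by
    intro α β h p l r q h1 h2
    refine h (iA α ++ iB p) (iB l) (iA (w (l, r)) ++ iB r) (iB q)
      (Or.inr (Or.inr ⟨(l, r), h1, rfl⟩)) ?_
    rw [h2, iB_append, iB_append]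
    simp only [List.append_assoc]
  have hsplit : ∀ u : List (A ⊕ B), Irr R' u → ∃ (α : List A) (β : List B), u = iA α ++ iB β := by
    intro u
    induction u with
    | nil => exact fun _ => ⟨[], [], rfl⟩
    | cons a u ih =>
      intro h
      have h1 : Irr R' u := by
        intro p l r q h2 h3
        exact h (a :: p) l r q h2 (by rw [h3]; rfl)
      obtain ⟨α, β, h4⟩ := ih h1
      cases a with
      | inl a => exact ⟨a :: α, β, by rw [h4]; rfl⟩
      | inr b =>
        cases α with
        | nil => exact ⟨[], b :: β, by rw [h4]; rfl⟩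
        | cons a α =>
          exfalso
          refine h [] [Sum.inr b, Sum.inl a] (iA (c b a) ++ [Sum.inr b]) (iA α ++ iB β)
            (Or.inr (Or.inl ⟨(b, a), rfl⟩)) ?_
          rw [h4]
          rfl
  refine ⟨A ⊕ B, R', Sum.elim π s, Sum.elim f fun _ => g, inferInstance, ?_, ?_, ?_, ?_, ?_, ?_⟩
  · exact (hRf.image _).union ((Set.finite_range _).union (hRB.image _))
  · rintro (a | b)
    · exact hf a
    · exact hgm
  · rintro (a | b) x
    · exact hx a x
    · exact hgx x
  · rintro p (⟨p, hp, rfl⟩ | ⟨⟨b, a⟩, rfl⟩ | ⟨p, hp, rfl⟩)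
    · simp only [val_iA, foldr_iA]
      exact hR p hp
    · constructor
      · have h1 : val (Sum.elim π s) ([Sum.inr b] : List (A ⊕ B)) = s b := val_one _ _
        have h2 : val (Sum.elim π s) ([Sum.inr b, Sum.inl a] : List (A ⊕ B)) = s b * π a := by
          rw [val_cons, val_one]
          rfl
        simp only
        rw [h2, val_append, val_iA, h1, hc]
        group
      · intro x
        simp only
        rw [List.foldr_append, foldr_iA]
        show (c b a).foldr f (g x) < g (f a x)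
        calc (c b a).foldr f (g x) ≤ Φ (g x) := hΦ1 _ (hcW b a) _
          _ < g (x + 1) := grow_succ Φ x
          _ ≤ g (f a x) := hgm.monotone (hx a x)
    · constructor
      · simp only
        rw [val_iB, val_append, val_iA, val_iB, hw p hp]
        group
      · intro x
        simp only
        rw [List.foldr_append, foldr_iB, foldr_iB, foldr_iA]
        have h1 := hlen p hp
        obtain ⟨n, hn'⟩ : ∃ n, p.1.length = n + 1 := ⟨p.1.length - 1, by omega⟩
        rw [hn', Function.iterate_succ_apply']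
        calc (w p).foldr f (g^[p.2.length] x) ≤ (w p).foldr f (g^[n] x) :=
              (foldr_mono hf (w p)).monotone (iter_le hgx (by omega) x)
          _ ≤ Φ (g^[n] x) := hΦ1 _ (hwW p hp) _
          _ < g (g^[n] x) := grow_gt Φ _
  · intro u v hu hv huv
    obtain ⟨α, β, rfl⟩ := hsplit u hu
    obtain ⟨α', β', rfl⟩ := hsplit v hv
    rw [val_append, val_append, val_iA, val_iB, val_iA, val_iB] at huv
    have h1 : val π α ∈ K := (hm _).2 ⟨α, rfl⟩
    have h2 : val π α' ∈ K := (hm _).2 ⟨α', rfl⟩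
    have h3 : val s β * (val s β')⁻¹ ∈ K := by
      have h4 : val s β * (val s β')⁻¹ = (val π α)⁻¹ * val π α' := by
        rw [mul_inv_eq_iff_eq_mul, mul_assoc, ← huv]
        group
      rw [h4]
      exact K.mul_mem (K.inv_mem h1) h2
    have h5 := hinj β β' (hirB _ _ hu) (hirB _ _ hv) h3
    subst h5
    have h6 := hi α α' (hirA _ _ hu) (hirA _ _ hv) (mul_right_cancel huv)
    rw [h6]
  · intro g
    constructor
    · intro hg
      obtain ⟨k, hk, u, rfl⟩ := hall g hg
      obtain ⟨v, hv⟩ := (hm _).1 hk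
      exact ⟨iA v ++ iB u, by rw [val_append, val_iA, val_iB, hv]⟩
    · rintro ⟨u, rfl⟩
      induction u with
      | nil => exact K'.one_mem
      | cons a u ih =>
        rw [val_cons]
        refine K'.mul_mem ?_ ih
        cases a with
        | inl a => exact hKK (hπ a)
        | inr b => exact hs b

end Pool.Agent.Helper2CR
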