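import Pool.Agent.Helper2CR.Basic
import Pool.Agent.Helper2GI.RACG

/-!
The numbers game for right-angled Coxeter groups.
-/

set_option autoImplicit false

namespace Pool.Agent.Helper2CR

open Pool.Agent.Helper2GI Pool.Agent.Helper2GI.RA

variable {V : Type} {G : RA V}

open Classical in
/-- one move -/
noncomputable def fire (G : RA V) (s : V) (p : V → ℤ) : V → ℤ :=
  fun t => if t = s then - p s else if G.adj s t then p t else p t + 2 * p s

theorem fire_self (s : V) (p : V → ℤ) : fire G s p s = - p s := by
  unfold fire; rw [if_pos rfl]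

theorem fire_adj {s t : V} (h : G.adj s t) (p : V → ℤ) : fire G s p t = p t := by
  have h1 : t ≠ s := by rintro rfl; exact G.irr _ h
  unfold fire; rw [if_neg h1, if_pos h]

theorem fire_not {s t : V} (h1 : t ≠ s) (h : ¬ G.adj s t) (p : V → ℤ) :
    fire G s p t = p t + 2 * p s := by
  unfold fire; rw [if_neg h1, if_neg h]

theorem fire_fire (s : V) (p : V → ℤ) : fire G s (fire G s p) = p := by
  funext t
  by_cases h1 : t = s
  · subst h1
    rw [fire_self, fire_self, neg_neg]
  · by_cases h : G.adj s t
    · rw [fire_adj h, fire_adj h]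
    · rw [fire_not h1 h, fire_not h1 h, fire_self]
      ring

theorem fire_comm {s s' : V} (hs : G.adj s s') (p : V → ℤ) :
    fire G s (fire G s' p) = fire G s' (fire G s p) := by
  have hs' := G.symm hs
  funext t
  by_cases h1 : t = s
  · subst h1
    rw [fire_self, fire_adj hs', fire_adj hs', fire_self]
  · by_cases h2 : t = s'
    · subst h2
      rw [fire_adj hs, fire_self, fire_self, fire_adj hs]
    · by_cases h : G.adj s t <;> by_cases h' : G.adj s' t
      · rw [fire_adj h, fire_adj h', fire_adj h', fire_adj h]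
      · rw [fire_adj h, fire_not h2 h', fire_not h2 h', fire_adj h, fire_adj hs]
      · rw [fire_not h1 h, fire_adj h', fire_adj h', fire_not h1 h, fire_adj hs']
      · rw [fire_not h1 h, fire_not h2 h', fire_not h2 h', fire_not h1 h, fire_adj hs,
          fire_adj hs']
        ring

/-- moves as permutations -/
noncomputable def fireP (G : RA V) (s : V) : Equiv.Perm (V → ℤ) where
  toFun := fire G s
  invFun := fire G s
  left_inv := fire_fire s
  right_inv := fire_fire s

/-- the action of the group -/
noncomputable def act (G : RA V) : G.W →* Equiv.Perm (V → ℤ) :=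
  RA.hom (fireP G) (fun s => by ext p t; exact congrFun (fire_fire s p) t)
    (fun s s' h => by ext p t; exact congrFun (fire_comm h p) t)

theorem act_g (s : V) (p : V → ℤ) : act G (G.g s) p = fire G s p := by
  unfold act
  rw [RA.hom_g]
  rfl

/-- cliques -/
def Cq (G : RA V) (σ : Finset V) : Prop := ∀ s ∈ σ, ∀ t ∈ σ, s ≠ t → G.adj s t

theorem Cq.mono {σ τ : Finset V} (h : Cq G σ) (hs : τ ⊆ σ) : Cq G τ :=
  fun s hs' t ht' => h s (hs hs') t (hs ht')

/-- the product of the elements of a clique -/
noncomputable def cl (G : RA V) (σ : Finset V) : G.W := (σ.toList.map G.g).prod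

theorem cl_empty : cl G ∅ = 1 := by simp [cl]

theorem commute_of {σ : Finset V} (h : Cq G σ) {s t : V} (hs : s ∈ σ) (ht : t ∈ σ) :
    Commute (G.g s) (G.g t) := by
  by_cases hst : s = t
  · rw [hst]
  · exact gcomm (h s hs t ht hst)

variable [DecidableEq V]

theorem cl_insert {s : V} {σ : Finset V} (hs : s ∉ σ) (h : Cq G (insert s σ)) :
    cl G (insert s σ) = G.g s * cl G σ := by
  unfold cl
  have h1 : ((insert s σ).toList.map G.g).Perm ((s :: σ.toList).map G.g) :=
    (Finset.toList_insert hs).map _
  rw [h1.prod_eq' ?_, List.map_cons, List.prod_cons]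
  rw [List.pairwise_map]
  apply List.pairwise_of_forall_mem_list
  intro a ha b hb
  exact commute_of h (Finset.mem_toList.1 ha) (Finset.mem_toList.1 hb)

theorem cl_comm {a : V} {σ : Finset V} (h : ∀ s ∈ σ, s ≠ a → G.adj a s) (hσ : Cq G σ) :
    cl G σ * G.g a = G.g a * cl G σ := by
  induction σ using Finset.induction_on with
  | empty => rw [cl_empty, one_mul, mul_one]
  | insert s σ hs ih =>
    have h1 := ih (fun t ht => h t (Finset.mem_insert_of_mem ht)) (hσ.mono (Finset.subset_insert _ _))
    rw [cl_insert hs hσ, mul_assoc, h1, ← mul_assoc, ← mul_assoc]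
    congr 1
    by_cases hsa : s = a
    · rw [hsa]
    · exact (gcomm (h s (Finset.mem_insert_self _ _) hsa)).symm

theorem cl_insert' {s : V} {σ : Finset V} (hs : s ∉ σ) (h : Cq G (insert s σ)) :
    cl G (insert s σ) = cl G σ * G.g s := by
  rw [cl_insert hs h, cl_comm (fun t ht hts => h s (Finset.mem_insert_self _ _) t
    (Finset.mem_insert_of_mem ht) (Ne.symm hts)) (h.mono (Finset.subset_insert _ _))]

theorem cl_erase {s : V} {σ : Finset V} (hs : s ∈ σ) (h : Cq G σ) :
    cl G σ = G.g s * cl G (σ.erase s) := by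
  conv_lhs => rw [← Finset.insert_erase hs]
  rw [cl_insert (Finset.notMem_erase _ _) (by rwa [Finset.insert_erase hs])]

theorem cl_erase' {s : V} {σ : Finset V} (hs : s ∈ σ) (h : Cq G σ) :
    cl G σ = cl G (σ.erase s) * G.g s := by
  conv_lhs => rw [← Finset.insert_erase hs]
  rw [cl_insert' (Finset.notMem_erase _ _) (by rwa [Finset.insert_erase hs])]

open Classical in
theorem act_cl {σ : Finset V} (h : Cq G σ) (p : V → ℤ) (t : V) :
    act G (cl G σ) p t = if t ∈ σ then - p t else
      p t + 2 * ∑ s ∈ σ.filter (fun s => ¬ G.adj s t), p s := by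
  induction σ using Finset.induction_on generalizing t with
  | empty => rw [cl_empty, map_one]; simp
  | insert s σ hs ih =>
    have ih' := ih (h.mono (Finset.subset_insert _ _))
    rw [cl_insert hs h, map_mul, Equiv.Perm.mul_apply, act_g]
    have hsv : act G (cl G σ) p s = p s := by
      rw [ih' s, if_neg hs]
      have : σ.filter (fun s' => ¬ G.adj s' s) = ∅ := by
        rw [Finset.filter_eq_empty_iff]
        intro t ht
        rw [not_not]
        exact h t (Finset.mem_insert_of_mem ht) s (Finset.mem_insert_self _ _)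
          (by rintro rfl; exact hs ht)
      rw [this]
      simp
    by_cases h1 : t = s
    · subst h1
      rw [fire_self, hsv, if_pos (Finset.mem_insert_self _ _)]
    · by_cases h2 : t ∈ σ
      · have h3 : G.adj s t := h s (Finset.mem_insert_self _ _) t (Finset.mem_insert_of_mem h2)
          (Ne.symm h1)
        rw [fire_adj h3, ih' t, if_pos h2, if_pos (Finset.mem_insert_of_mem h2)]
      · have h4 : t ∉ insert s σ := by
          rw [Finset.mem_insert]
          rintro (h5 | h5)
          · exact h1 h5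
          · exact h2 h5
        rw [if_neg h4]
        by_cases h3 : G.adj s t
        · rw [fire_adj h3, ih' t, if_neg h2, Finset.filter_insert, if_neg (not_not.2 h3)]
        · rw [fire_not h1 h3, ih' t, if_neg h2, hsv, Finset.filter_insert, if_pos h3,
            Finset.sum_insert (by simp [hs])]
          ring

/-- the invariant: `H` is the set of the negative places -/
structure Inv (G : RA V) (o : V) (H : Finset V) (q : V → ℤ) : Prop where
  neg : ∀ s ∈ H, q s < 0
  pos : ∀ s, s ∉ H → s ≠ o → 0 < q s
  nn : 0 ≤ q o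
  big : ∀ t ∈ H, ∀ s, s ≠ t → ¬ G.adj t s → |q t| < q s

/-- the intermediate invariant -/
structure RInv (G : RA V) (o : V) (P : V → Prop) (r : V → ℤ) : Prop where
  neg : ∀ s, P s → r s < 0
  pos : ∀ s, ¬ P s → s ≠ o → 0 < r s
  big : ∀ s, P s → ∀ t, t ≠ o → t ≠ s → ¬ G.adj s t → |r s| < r t
  base : ∀ t, t ≠ o → ¬ G.adj o t → ¬ P t → 0 < r o + r t

variable {o : V}

omit [DecidableEq V] in
theorem step1a {H : Finset V} {q : V → ℤ} (h : Inv G o H q) :
    RInv G o (fun s => s ∈ H) q where
  neg := h.neg
  pos := h.pos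
  big := fun s hs t _ hts hn => h.big s hs t hts hn
  base := fun t hto _ hP => by
    have h1 := h.pos t hP hto
    have h2 := h.nn
    omega

omit [DecidableEq V] in
theorem step1b {H : Finset V} {q : V → ℤ} (h : Inv G o H q) (ho : o ∉ H) :
    RInv G o (fun s => s ∈ H ∧ G.adj o s) (fire G o q) where
  neg := by
    rintro s ⟨h1, h2⟩
    rw [fire_adj h2]
    exact h.neg s h1
  pos := by
    intro s hs hso
    by_cases h1 : s ∈ H
    · have h2 : ¬ G.adj o s := fun h3 => hs ⟨h1, h3⟩
      have h3 := h.big s h1 o (Ne.symm hso) (fun h4 => h2 (G.symm h4))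
      rw [fire_not hso h2]
      have h4 := neg_abs_le (q s)
      have h5 := abs_nonneg (q s)
      omega
    · have h2 := h.pos s h1 hso
      have h3 := h.nn
      by_cases h4 : G.adj o s
      · rw [fire_adj h4]; exact h2
      · rw [fire_not hso h4]; omega
  big := by
    rintro s ⟨h1, h2⟩ t hto hts hn
    have h3 := h.big s h1 t hts hn
    have h4 := h.nn
    rw [fire_adj h2]
    by_cases h5 : G.adj o t
    · rw [fire_adj h5]; exact h3
    · rw [fire_not hto h5]; omega
  base := by
    intro t hto hn hP
    rw [fire_self, fire_not hto hn]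
    have h4 := h.nn
    by_cases h1 : t ∈ H
    · have h3 := h.big t h1 o (Ne.symm hto) (fun h4 => hn (G.symm h4))
      have h5 := neg_abs_le (q t)
      omega
    · have h2 := h.pos t h1 hto
      omega

theorem step2 {P : V → Prop} {r : V → ℤ} (h : RInv G o P r) {σ : Finset V} (hσ : Cq G σ)
    (ho : o ∉ σ) (hirr : ∀ s, P s → s ∉ σ ∧ ∃ t ∈ σ, t ≠ s ∧ ¬ G.adj s t)
    (hty : (∀ t ∈ σ, G.adj o t) → 0 ≤ r o) :
    Inv G o σ (act G (cl G σ) r) ∧ (¬ (∀ t ∈ σ, G.adj o t) → 0 < act G (cl G σ) r o) := by
  classical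
  have hpos : ∀ s ∈ σ, 0 < r s := fun s hs =>
    h.pos s (fun h1 => (hirr s h1).1 hs) (by rintro rfl; exact ho hs)
  have hS0 : ∀ t, 0 ≤ ∑ s ∈ σ.filter (fun s => ¬ G.adj s t), r s := fun t =>
    Finset.sum_nonneg fun s hs => (hpos s (Finset.mem_filter.1 hs).1).le
  have hS : ∀ t, ∀ s ∈ σ, ¬ G.adj s t → r s ≤ ∑ s ∈ σ.filter (fun s => ¬ G.adj s t), r s := by
    intro t s hs hn
    exact Finset.single_le_sum (f := r) (fun s hs => (hpos s (Finset.mem_filter.1 hs).1).le)
      (Finset.mem_filter.2 ⟨hs, hn⟩)
  have hin : ∀ t ∈ σ, act G (cl G σ) r t = - r t := fun t ht => by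
    rw [act_cl hσ, if_pos ht]
  have hout : ∀ t, t ∉ σ → act G (cl G σ) r t =
      r t + 2 * ∑ s ∈ σ.filter (fun s => ¬ G.adj s t), r s := fun t ht => by
    rw [act_cl hσ, if_neg ht]
  have htwo : ¬ (∀ t ∈ σ, G.adj o t) → 0 < act G (cl G σ) r o := by
    intro h1
    push Not at h1
    obtain ⟨t, ht, hn⟩ := h1
    rw [hout o ho]
    have hto : t ≠ o := by rintro rfl; exact ho ht
    have h2 := h.base t hto hn (fun h3 => (hirr t h3).1 ht)
    have h3 := hS o t ht (fun h4 => hn (G.symm h4))
    have h4 := hpos t ht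
    omega
  refine ⟨⟨?_, ?_, ?_, ?_⟩, htwo⟩
  · intro s hs
    rw [hin s hs]
    have := hpos s hs
    omega
  · intro t ht hto
    rw [hout t ht]
    by_cases hP : P t
    · obtain ⟨_, s, hs, hst, hn⟩ := hirr t hP
      have h1 := h.big t hP s (by rintro rfl; exact ho hs) hst hn
      have h2 := hS t s hs (fun h3 => hn (G.symm h3))
      have h3 := neg_abs_le (r t)
      have h4 := abs_nonneg (r t)
      omega
    · have h1 := h.pos t hP hto
      have h2 := hS0 t
      omega
  · by_cases h1 : ∀ t ∈ σ, G.adj o t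
    · rw [hout o ho]
      have := hty h1
      have h2 := hS0 o
      omega
    · exact (htwo h1).le
  · intro t ht s hst hn
    have hs : s ∉ σ := fun h1 => hn (hσ t ht s h1 (Ne.symm hst))
    rw [hin t ht, hout s hs, abs_neg]
    have h0 := hpos t ht
    rw [abs_of_pos h0]
    have h2 := hS s t ht hn
    by_cases hso : s = o
    · subst hso
      have h3 := h.base t (Ne.symm hst) (fun h4 => hn (G.symm h4)) (fun h3 => (hirr t h3).1 ht)
      omega
    · by_cases hP : P s
      · have h1 := h.big s hP t (by rintro rfl; exact ho ht) (Ne.symm hst) (fun h3 => hn (G.symm h3))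
        have h3 := neg_abs_le (r s)
        omega
      · have h1 := h.pos s hP hso
        omega

end Pool.Agent.Helper2CR
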