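import Pool.Agent.Helper2CR.Ev
import Pool.Agent.Helper2CR.Cyc
import Pool.Agent.Helper2GI.PetE

/-!
Complete rewriting systems for the graph incidence groups of connected planar graphs.
-/

set_option autoImplicit false

namespace Pool.Agent.Helper2CR

open Pool.Agent.Helper2GI Pool.Agent.Helper2GI.RA

/-- transport along a homomorphism which is injective on the subgroup -/
theorem good_of_hom {H W : Type} [Group H] [Group W] (ψ : H →* W) {K : Subgroup H}
    (hinj : ∀ g ∈ K, ψ g = 1 → g = 1) (hG : Good (K.map ψ)) : Good K := by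
  obtain ⟨A, R, π, f, hA, hRf, hf, hx, hR, hi, hm⟩ := hG
  have hinj' : ∀ g ∈ K, ∀ h ∈ K, ψ g = ψ h → g = h := by
    intro g hg h hh e
    have h1 := hinj (g * h⁻¹) (K.mul_mem hg (K.inv_mem hh)) (by
      rw [map_mul, map_inv, e, mul_inv_cancel])
    rwa [mul_inv_eq_one] at h1
  have hπ : ∀ a, ∃ g ∈ K, ψ g = π a := fun a => (hm _).2 ⟨[a], val_one π a⟩
  choose π' hK hπ' using hπ
  have hvK : ∀ u, val π' u ∈ K := by
    intro u
    induction u with
    | nil => exact K.one_mem
    | cons a u ih => rw [val_cons]; exact K.mul_mem (hK a) ih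
  have hv : ∀ u, ψ (val π' u) = val π u := by
    intro u
    induction u with
    | nil => exact map_one ψ
    | cons a u ih => rw [val_cons, val_cons, map_mul, ih, hπ']
  refine ⟨A, R, π', f, hA, hRf, hf, hx, ?_, ?_, ?_⟩
  · intro p hp
    refine ⟨hinj' _ (hvK _) _ (hvK _) ?_, (hR p hp).2⟩
    rw [hv, hv]
    exact (hR p hp).1
  · intro u v hu hv' h
    exact hi u v hu hv' (by rw [← hv, ← hv, h])
  · intro g
    constructor
    · intro hg
      obtain ⟨u, hu⟩ := (hm (ψ g)).1 ⟨g, hg, rfl⟩
      exact ⟨u, hinj' _ (hvK u) _ hg (by rw [hv, hu])⟩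
    · rintro ⟨u, rfl⟩
      exact hvK u

theorem good_even' {V : Type} [Finite V] (G : RA V) : Good (parE G).ker := by
  classical
  rcases isEmpty_or_nonempty V with h | ⟨⟨o⟩⟩
  · have h1 : (parE G).ker = ⊥ := by
      rw [eq_bot_iff]
      intro g _
      obtain ⟨m, _, rfl⟩ := exists_red g
      rw [Subgroup.mem_bot]
      cases m with
      | nil => rfl
      | cons a m => exact (h.false a).elim
    rw [h1]
    exact good_bot
  · exact good_even G o

variable {c : Code}

theorem exists_word (g : Gam c) : ∃ u : List (Option (Edge c)), vG c u = g := by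
  have hinv : ∀ a : Option (Edge c), (PresentedGroup.of (rels := {r | Rlt c r}) a)⁻¹ =
      PresentedGroup.of a := by
    intro a
    apply inv_eq_of_mul_eq_one_right
    cases a with
    | none => exact JJ_one c
    | some i => exact xx_one c i
  have hsingle : ∀ a : Option (Edge c), vG c [a] = PresentedGroup.of a := fun a => by simp [vG]
  have h1 : ∀ w : FreeGroup (Option (Edge c)),
      ∃ u, vG c u = PresentedGroup.mk {r | Rlt c r} w := by
    intro w
    induction w using FreeGroup.induction_on with
    | C1 => exact ⟨[], by rw [map_one]; rfl⟩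
    | of a => exact ⟨[a], hsingle a⟩
    | inv_of a _ => exact ⟨[a], by rw [map_inv]; exact (hsingle a).trans (hinv a).symm⟩
    | mul x y hx hy =>
      obtain ⟨u, hu⟩ := hx
      obtain ⟨v, hv⟩ := hy
      exact ⟨u ++ v, by rw [vG_append, hu, hv, map_mul]⟩
  obtain ⟨w, rfl⟩ := QuotientGroup.mk_surjective g
  exact h1 w

theorem JJp (k : ZMod 2) : (J c) ^ k.val = 1 ∨ (J c) ^ k.val = J c := by
  rcases zmod2_cases k with rfl | rfl
  · exact Or.inl (pow_zero _)
  · exact Or.inr (pow_one _)

theorem JJ1 : J c * J c = 1 := JJ_one c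

theorem word_form (g : Gam c) : ∃ (k : ZMod 2) (w : List (Edge c)),
    g = J c ^ k.val * vG c (w.map some) := by
  obtain ⟨u, rfl⟩ := exists_word g
  obtain ⟨k, w, _, h⟩ := pull u
  exact ⟨k, w, by rw [GR_val h, vG_append, vG_jw]⟩

theorem D_val {N : ℕ} {k : ZMod 2} {s t : List (Edge c)} (h : D c N k s t) :
    vG c (s.map some) = J c ^ k.val * vG c (t.map some) := by
  have h1 := GR_val (h 0 [] [])
  rw [jw_zero, zero_add] at h1
  simp only [List.nil_append, List.append_nil] at h1
  rw [h1, vG_append, vG_jw]

/-- connected planar graphs: connected graphs with a rotation system which satisfies Euler's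
formula (if there is an edge) -/
def ConnPlanar (c : Code) : Prop :=
  ∃ (σ : Equiv.Perm (Dart c)) (hσ : Rotation c σ), Spheres c σ hσ (fun _ => 0)

section
variable {σ : Equiv.Perm (Dart c)}

/-- the common labelling -/
abbrev cz : ℕ → ℕ := fun _ => 0

/-- the element of an edge -/
noncomputable def ee (σ : Equiv.Perm (Dart c)) (i : Edge c) : (RR c σ cz).W := el σ cz 0 i

theorem ee_eq (hσ : Rotation c σ) (e : Dart c) : ee σ e.1 = gp σ cz e := el_eq hσ rfl

theorem exists_psi (hV : Valid c) (hσ : Rotation c σ) :
    ∃ ψ : Gam c →* (RR c σ cz).W, ψ (J c) = 1 ∧ ∀ i, ψ (x c i) = ee σ i := by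
  refine exists_hom 1 (ee σ) (one_mul 1) ?_ (fun i => by rw [mul_one, one_mul]) ?_ ?_
  · intro i
    rw [ee_eq hσ (i, false)]
    exact gp_sq hσ _
  · intro v i k hi hk
    obtain ⟨e, h1, h2⟩ := inc_cases hi
    obtain ⟨d, g1, g2⟩ := inc_cases hk
    rw [← h1, ← g1, ee_eq hσ, ee_eq hσ]
    exact gp_comm hσ (h2.trans g2.symm)
  · intro v _
    rw [one_pow]
    exact el_prod2 (cl := cz) hσ hV v

/-- the words of even total colour are derived up to powers of `J` -/
theorem D_word {Y : Rg c σ cz → List (Edge c)} {sn : ℕ → Edge c → ZMod 2}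
    (hY : Pots c σ cz Y sn) (hV : Valid c) (hσ : Rotation c σ) (w : List (Edge c)) :
    (w.map (ee σ)).prod ∈ (parity c σ cz).ker ∧
      ∃ (k : ZMod 2) (N : ℕ), D c N k w (yw Y false (rw' (w.map (ee σ)).prod)) := by
  induction w with
  | nil =>
    refine ⟨Subgroup.one_mem _, 0, 0, ?_⟩
    have h1 : (rw' (1 : (RR c σ cz).W)).length = 0 := by rw [rw_len, len_one]
    rw [List.map_nil, List.prod_nil, List.eq_nil_of_length_eq_zero h1]
    exact D.refl 0 []
  | cons i w ih =>
    obtain ⟨ih1, k, N, ih2⟩ := ih
    have hg := gp_mem (c := c) (σ := σ) (cl := cz) (i, false)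
    have h1 := repD_el hY hV hσ (i, false)
    have h2 := repD_mul hY hV hσ (a := gp σ cz (i, false)) (b := (w.map (ee σ)).prod) hg
    rw [List.map_cons, List.prod_cons, ee_eq hσ (i, false)]
    refine ⟨Subgroup.mul_mem _ hg ih1, ?_⟩
    set A := yw Y false (rw' (gp σ cz (i, false))) with hA
    set B := yw Y false (rw' (w.map (ee σ)).prod) with hB
    set M := AA c 2 + N + A.length + w.length + 10 +
      AA c ((RR c σ cz).len (gp σ cz (i, false)) + (RR c σ cz).len (w.map (ee σ)).prod) with hM
    have a1 := h1.ctx [] w (N' := M) (by simp only [List.length_nil]; omega)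
    have a2 := ih2.ctx A [] (N' := M) (by simp only [List.length_nil]; omega)
    simp only [List.nil_append, List.append_nil] at a1 a2
    have a3 := h2.mono (N' := M) (by omega)
    exact ⟨_, M, (a1.trans a2).trans a3⟩

theorem ker_even {Y : Rg c σ cz → List (Edge c)} {sn : ℕ → Edge c → ZMod 2}
    (hY : Pots c σ cz Y sn) (hV : Valid c) (hσ : Rotation c σ) (w : List (Edge c))
    (hw : (w.map (ee σ)).prod = 1) : ∃ (k : ZMod 2) (N : ℕ), D c N k w [] := by
  obtain ⟨_, k, N, h⟩ := D_word hY hV hσ w
  rw [hw] at h
  have h1 : (rw' (1 : (RR c σ cz).W)).length = 0 := by rw [rw_len, len_one]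
  rw [List.eq_nil_of_length_eq_zero h1] at h
  exact ⟨k, N, h⟩

theorem ker_words (hV : Valid c) (hσ : Rotation c σ) (hM : Spheres c σ hσ cz) (w : List (Edge c))
    (hw : (w.map (ee σ)).prod = 1) : vG c (w.map some) = 1 ∨ vG c (w.map some) = J c := by
  have hσ0 : Rotation (c0 c) σ := ⟨hσ.tl_eq, hσ.cyc⟩
  have hM0 : Spheres (c0 c) σ hσ0 cz := ⟨hM.comp, hM.joined, hM.euler⟩
  have hV0 : Valid (c0 c) := hV
  have hev0 : ∀ v < (c0 c).1, tot (c0 c) cz (cz v) = 0 := by
    intro v _
    unfold tot
    apply Finset.sum_eq_zero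
    intro w _
    rw [colour_c0, Nat.cast_zero]
  obtain ⟨Y, sn, hY⟩ := exists_potsS hV0 hσ0 hM0 hev0
  obtain ⟨k, N, h⟩ := ker_even (c := c0 c) hY hV0 hσ0 w hw
  have h1 := h 0 [] []
  rw [jw_zero, zero_add] at h1
  simp only [List.nil_append, List.append_nil, List.length_nil, List.map_nil, Nat.add_zero] at h1
  have h2 := h1.mono (N' := N + 2 + (w.map some).length) (by omega)
  obtain ⟨k', h3⟩ := GR_c0 (c := c) (s := w.map some) (t := jw k) (by omega) h2 0
  have h4 := GR_val h3
  rw [jw_zero, List.nil_append, zero_add, vG_append, vG_jw, vG_jw] at h4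
  rw [h4]
  rcases JJp (c := c) k with h5 | h5 <;> rcases JJp (c := c) k' with h6 | h6 <;> rw [h5, h6]
  · exact Or.inl (one_mul 1)
  · exact Or.inr (mul_one _)
  · exact Or.inr (one_mul _)
  · exact Or.inl JJ1

theorem psi_word {ψ : Gam c →* (RR c σ cz).W} (h2 : ∀ i, ψ (x c i) = ee σ i)
    (w : List (Edge c)) : ψ (vG c (w.map some)) = (w.map (ee σ)).prod := by
  unfold vG
  rw [map_list_prod, List.map_map, List.map_map]
  congr 1
  apply List.map_congr_left
  intro i _
  exact h2 i

theorem psi_ker (hV : Valid c) (hσ : Rotation c σ) (hM : Spheres c σ hσ cz)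
    {ψ : Gam c →* (RR c σ cz).W} (h1 : ψ (J c) = 1) (h2 : ∀ i, ψ (x c i) = ee σ i) {g : Gam c}
    (hg : ψ g = 1) : g = 1 ∨ g = J c := by
  obtain ⟨k, w, rfl⟩ := word_form g
  rw [map_mul, map_pow, h1, one_pow, one_mul, psi_word h2] at hg
  rcases JJp (c := c) k with h5 | h5 <;> rcases ker_words hV hσ hM w hg with h6 | h6 <;>
    rw [h5, h6]
  · exact Or.inl (one_mul 1)
  · exact Or.inr (one_mul _)
  · exact Or.inr (mul_one _)
  · exact Or.inl JJ1

theorem psi_range (hV : Valid c) (hσ : Rotation c σ) (hM : Spheres c σ hσ cz)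
    {ψ : Gam c →* (RR c σ cz).W} (h1 : ψ (J c) = 1) (h2 : ∀ i, ψ (x c i) = ee σ i) :
    ψ.range = (parE (RR c σ cz)).ker := by
  classical
  have hgp : ∀ e : Dart c, gp σ cz e ∈ ψ.range := fun e => ⟨x c e.1, by rw [h2, ee_eq hσ]⟩
  apply le_antisymm
  · rintro _ ⟨g, rfl⟩
    obtain ⟨k, w, rfl⟩ := word_form g
    rw [map_mul, map_pow, h1, one_pow, one_mul, psi_word h2]
    induction w with
    | nil => exact Subgroup.one_mem _
    | cons i w ih =>
      rw [List.map_cons, List.prod_cons, ee_eq hσ (i, false)]
      exact Subgroup.mul_mem _ (gp_mem (c := c) (σ := σ) (cl := cz) (i, false)) ih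
  · -- the relation on regions
    let T : Rg c σ cz → Rg c σ cz → Prop := fun f f' =>
      (RR c σ cz).g f * (RR c σ cz).g f' ∈ ψ.range
    have Trefl : ∀ f, T f f := fun f => by
      show _ * _ ∈ _
      rw [gg]
      exact Subgroup.one_mem _
    have Tsymm : ∀ {f f'}, T f f' → T f' f := by
      intro f f' h
      have h3 := Subgroup.inv_mem _ h
      rwa [mul_inv_rev, g_inv, g_inv] at h3
    have Ttrans : ∀ {f f' f''}, T f f' → T f' f'' → T f f'' := by
      intro f f' f'' h h'
      have h3 := Subgroup.mul_mem _ h h'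
      have e : (RR c σ cz).g f * (RR c σ cz).g f' * ((RR c σ cz).g f' * (RR c σ cz).g f'') =
          (RR c σ cz).g f * ((RR c σ cz).g f' * (RR c σ cz).g f') * (RR c σ cz).g f'' := by group
      rw [e, gg, mul_one] at h3
      exact h3
    have Tstep : ∀ e : Dart c, T (reg σ cz (σ⁻¹ e)) (reg σ cz e) := hgp
    have Tnext : ∀ e : Dart c, T (reg σ cz e) (reg σ cz (σ e)) := by
      intro e
      have h3 := Tstep (σ e)
      rwa [pinv2] at h3
    have Tcyc : ∀ d e : Dart c, tl d = tl e → T (reg σ cz d) (reg σ cz e) := by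
      intro d e hde
      obtain ⟨n, hn⟩ := hσ.cyc d e hde
      rw [← hn]
      clear hn hde
      induction n with
      | zero => exact Trefl _
      | succ n ih =>
        refine Ttrans ih ?_
        have h3 := Tnext ((σ ^ (n : ℤ)) d)
        rwa [← Equiv.Perm.mul_apply, ← zpow_one_add, add_comm] at h3
      | pred n ih =>
        refine Ttrans ih ?_
        have h3 := Tstep ((σ ^ (-(n : ℤ))) d)
        rw [← Equiv.Perm.mul_apply, ← zpow_neg_one, ← zpow_add] at h3
        have e1 : (-1 : ℤ) + -(n : ℤ) = -(n : ℤ) - 1 := by ring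
        rw [e1] at h3
        exact Tsymm h3
    have Top : ∀ e : Dart c, T (reg σ cz e) (reg σ cz (op e)) := by
      intro e
      rw [reg_op (σ := σ) (cl := cz) (show inn cz e from rfl)]
      exact Tsymm (Tstep e)
    have Tall : ∀ d e : Dart c, T (reg σ cz d) (reg σ cz e) := by
      intro d
      have hj := hM.joined (tl d) (tl_lt hV d)
      have key : ∀ v, Relation.ReflTransGen (fun a b => Adj c a b ∧ cz a = cz (tl d) ∧
          cz b = cz (tl d)) (tl d) v → ∀ e : Dart c, tl e = v → T (reg σ cz d) (reg σ cz e) := by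
        intro v hv
        induction hv with
        | refl => intro e he; exact Tcyc d e he.symm
        | @tail a b _ hab ih =>
          intro e he
          obtain ⟨⟨hne, i, hia, hib⟩, _⟩ := hab
          obtain ⟨ea, h3, h4⟩ := inc_cases hia
          obtain ⟨eb, h5, h6⟩ := inc_cases hib
          have h7 : eb = op ea := by
            rcases same_edge (h5.trans h3.symm) with h8 | h8
            · exfalso
              apply hne
              rw [← h4, ← h6, h8]
            · exact h8
          have h8 := Ttrans (ih ea h4) (Top ea)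
          rw [← h7] at h8
          exact Ttrans h8 (Tcyc eb e (h6.trans he.symm))
      intro e
      exact key _ (hj (tl d) (tl e) (tl_lt hV d) (tl_lt hV e) rfl rfl) e rfl
    have Tfin : ∀ f f', T f f' := by
      intro f f'
      obtain ⟨d, rfl⟩ := reg_surj f
      obtain ⟨e, rfl⟩ := reg_surj f'
      exact Tall d e
    intro g hg
    obtain ⟨m, hred, rfl⟩ := exists_red g
    clear hred
    rw [MonoidHom.mem_ker, parE_ev] at hg
    have h3 : (m.length : ZMod 2) = 0 := hg
    rw [ZMod.natCast_eq_zero_iff] at h3
    obtain ⟨n, hn⟩ := h3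
    clear hg
    induction n generalizing m with
    | zero =>
      have : m = [] := List.eq_nil_of_length_eq_zero (by omega)
      rw [this]
      exact Subgroup.one_mem _
    | succ n ih =>
      match m, hn with
      | [], hn => simp at hn
      | [a], hn => simp only [List.length_singleton] at hn; omega
      | a :: b :: m, hn =>
        rw [ev_cons, ev_cons, ← mul_assoc]
        refine Subgroup.mul_mem _ (Tfin a b) (ih m ?_)
        simp only [List.length_cons] at hn
        omega

instance : Finite (Rg c σ cz) := Finite.of_surjective (reg σ cz) reg_surj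

theorem planar_crs (hV : Valid c) (h : ConnPlanar c) :
    HasCRS (Gam c) ∧ HasCRS (Gam c ⧸ Subgroup.normalClosure {J c}) := by
  obtain ⟨σ, hσ, hM⟩ := h
  obtain ⟨ψ, h1, h2⟩ := exists_psi hV hσ
  have hrange := psi_range hV hσ hM h1 h2
  have hgood := good_even' (RR c σ cz)
  constructor
  · apply good_crs
    by_cases hJ : J c = 1
    · refine good_of_hom ψ ?_ ?_
      · intro g _ hg
        rcases psi_ker hV hσ hM h1 h2 hg with h3 | h3
        · exact h3
        · rw [h3, hJ]
      · rw [← MonoidHom.range_eq_map, hrange]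
        exact hgood
    · -- the total colour is even
      have hev : ∀ v < c.1, tot c cz (cz v) = 0 := by
        intro v hv
        by_contra h3
        have h4 : tot c cz (cz v) = 1 := by
          rcases zmod2_cases (tot c cz (cz v)) with h5 | h5
          · exact absurd h5 h3
          · exact h5
        have h5 := D_val (odd_D hV hσ hM hv h4)
        rw [List.map_nil, vG_nil, mul_one] at h5
        have e : (1 : ZMod 2).val = 1 := rfl
        rw [e, pow_one] at h5
        exact hJ h5.symm
      obtain ⟨Y, sn, hY⟩ := exists_potsS hV hσ hM hev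
      obtain ⟨χ, hχ1, hχ2⟩ := exists_hom (c := c) (M := Multiplicative (ZMod 2))
        (Multiplicative.ofAdd 1) (fun i => Multiplicative.ofAdd (sn 0 i)) rfl
        (fun i => by rw [← ofAdd_add, tw]; rfl) (fun i => mul_comm _ _)
        (fun v i k _ _ => mul_comm _ _) (by
          intro v hv
          have h3 := hY.sum v hv
          have h4 : ((star c v).map (fun i => Multiplicative.ofAdd (sn 0 i))).prod =
              Multiplicative.ofAdd ((star c v).map (sn 0)).sum := by
            generalize star c v = l
            induction l with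
            | nil => rfl
            | cons i l ih => rw [List.map_cons, List.prod_cons, ih, List.map_cons, List.sum_cons,
                ofAdd_add]
          rw [h4, h3, ← ofAdd_nsmul, nsmul_one])
      have hJχ : χ (J c) ≠ 1 := by
        rw [hχ1]
        exact fun h => absurd h (by decide)
      have hK : Good χ.ker := by
        refine good_of_hom ψ ?_ ?_
        · intro g hg hg1
          rcases psi_ker hV hσ hM h1 h2 hg1 with h3 | h3
          · exact h3
          · exfalso
            rw [h3] at hg
            exact hJχ hg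
        · have h3 : χ.ker.map ψ = ψ.range := by
            apply le_antisymm
            · rintro _ ⟨g, _, rfl⟩
              exact ⟨g, rfl⟩
            · rintro _ ⟨g, rfl⟩
              by_cases hg : χ g = 1
              · exact ⟨g, hg, rfl⟩
              · refine ⟨g * J c, ?_, by rw [map_mul, h1, mul_one]⟩
                show χ (g * J c) = 1
                rw [map_mul, hχ1]
                rcases zmod2_cases (Multiplicative.toAdd (χ g)) with h4 | h4
                · exact absurd h4 hg
                · have h5 : χ g = Multiplicative.ofAdd 1 := h4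
                  rw [h5, ← ofAdd_add, tw]
                  rfl
          rw [h3, hrange]
          exact hgood
      have hcent : ∀ k ∈ χ.ker, J c * k * (J c)⁻¹ ∈ χ.ker := by
        intro k hk
        rw [← J_central, mul_inv_cancel_right]
        exact hk
      have hcent' : ∀ k ∈ χ.ker, (J c)⁻¹ * k * J c ∈ χ.ker := by
        intro k hk
        rw [mul_assoc, J_central, inv_mul_cancel_left]
        exact hk
      have h4 := good_cyclic hK (J c) hcent hcent'
      have h5 : χ.ker ⊔ Subgroup.zpowers (J c) = ⊤ := by
        rw [eq_top_iff]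
        intro g _
        by_cases hg : χ g = 1
        · exact (le_sup_left : χ.ker ≤ _) hg
        · have h6 : g * J c ∈ χ.ker := by
            show χ (g * J c) = 1
            rw [map_mul, hχ1]
            rcases zmod2_cases (Multiplicative.toAdd (χ g)) with h4 | h4
            · exact absurd h4 hg
            · have h5 : χ g = Multiplicative.ofAdd 1 := h4
              rw [h5, ← ofAdd_add, tw]
              rfl
          have h7 : g = (g * J c) * (J c)⁻¹ := by rw [mul_inv_cancel_right]
          rw [h7]
          exact Subgroup.mul_mem _ ((le_sup_left : χ.ker ≤ _) h6)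
            (Subgroup.inv_mem _ ((le_sup_right : Subgroup.zpowers (J c) ≤ _)
              (Subgroup.mem_zpowers _)))
      rwa [h5] at h4
  · apply good_crs
    have hN : Subgroup.normalClosure {J c} ≤ ψ.ker := by
      apply Subgroup.normalClosure_le_normal
      rintro g rfl
      exact h1
    refine good_of_hom (QuotientGroup.lift (Subgroup.normalClosure {J c}) ψ hN) ?_ ?_
    · intro g _ hg
      obtain ⟨g, rfl⟩ := QuotientGroup.mk_surjective g
      have h3 : ψ g = 1 := hg
      rcases psi_ker hV hσ hM h1 h2 h3 with h4 | h4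
      · rw [h4]; rfl
      · rw [h4]
        exact (QuotientGroup.eq_one_iff _).2 (Subgroup.subset_normalClosure rfl)
    · have h3 : (⊤ : Subgroup (Gam c ⧸ Subgroup.normalClosure {J c})).map
          (QuotientGroup.lift (Subgroup.normalClosure {J c}) ψ hN) = ψ.range := by
        apply le_antisymm
        · rintro _ ⟨g, _, rfl⟩
          obtain ⟨g, rfl⟩ := QuotientGroup.mk_surjective g
          exact ⟨g, rfl⟩
        · rintro _ ⟨g, rfl⟩
          exact ⟨QuotientGroup.mk g, trivial, rfl⟩
      rw [h3, hrange]
      exact hgood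

end

end Pool.Agent.Helper2CR
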