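import Pool.Agent.Helper2CR.Pl

/-!
Complete rewriting systems for the graph incidence groups of the Petersen graph.
-/

set_option autoImplicit false

namespace Pool.Agent.Helper2CR

open Pool.Agent.Helper2GI Pool.Agent.Helper2GI.RA

/-- rotations and reflections -/
def sgn : DihedralGroup 0 →* Multiplicative (ZMod 2) where
  toFun
    | DihedralGroup.r _ => 1
    | DihedralGroup.sr _ => Multiplicative.ofAdd 1
  map_one' := rfl
  map_mul' := by
    rintro (a | a) (b | b)
    · rfl
    · rfl
    · rfl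
    · show (1 : Multiplicative (ZMod 2)) = Multiplicative.ofAdd 1 * Multiplicative.ofAdd 1
      decide

theorem rot_of {a : DihedralGroup 0} (h : sgn a = 1) : ∃ i, a = DihedralGroup.r i := by
  cases a with
  | r i => exact ⟨i, rfl⟩
  | sr i =>
    have h2 : Multiplicative.ofAdd (1 : ZMod 2) = 1 := h
    exact absurd h2 (by decide)

/-- groups with enough homomorphisms to the infinite dihedral group -/
theorem dihedral_crs {H : Type} [Group H] (hfg : Group.FG H) {ι : Type} [Finite ι] (j : H)
    (φ : ι → (H →* DihedralGroup 0)) (hφ : ∀ m, φ m j = 1)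
    (hker : ∀ g, (∀ m, φ m g = 1) → g = 1 ∨ g = j) : HasCRS H := by
  have hK1 : Good ((⊥ : Subgroup H) ⊔ Subgroup.zpowers j) := by
    refine good_cyclic good_bot j ?_ ?_ <;>
    · intro k hk
      rw [Subgroup.mem_bot] at hk ⊢
      rw [hk]
      group
  rw [bot_sup_eq] at hK1
  set Θ : H →* (ι → Multiplicative (ZMod 2)) := MonoidHom.pi fun m => sgn.comp (φ m) with hΘ
  have hA1 : Subgroup.zpowers j ≤ Θ.ker := by
    rw [Subgroup.zpowers_le, MonoidHom.mem_ker]
    funext m
    show sgn (φ m j) = 1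
    rw [hφ, map_one]
  have hfin : Θ.ker.FiniteIndex := by
    have : Finite (ι → Multiplicative (ZMod 2)) := inferInstance
    exact Subgroup.finiteIndex_ker Θ
  have hAfg : Θ.ker.FG := by
    have h1 : Group.FG Θ.ker := Subgroup.fg_of_index_ne_zero Θ.ker
    exact (Group.fg_iff_subgroup_fg _).1 h1
  have hA : Good Θ.ker := by
    refine good_abelian hK1 ?_ hA1 hAfg
    intro g hg h hh
    have h1 : g * h * g⁻¹ * h⁻¹ = 1 ∨ g * h * g⁻¹ * h⁻¹ = j := by
      apply hker
      intro m
      obtain ⟨a, ha⟩ := rot_of (congrFun hg m)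
      obtain ⟨b, hb⟩ := rot_of (congrFun hh m)
      rw [map_mul, map_mul, map_mul, map_inv, map_inv, ha, hb]
      have e : (DihedralGroup.r a : DihedralGroup 0) * DihedralGroup.r b =
          DihedralGroup.r b * DihedralGroup.r a := by
        rw [DihedralGroup.r_mul_r, DihedralGroup.r_mul_r, add_comm]
      rw [e]
      group
    rcases h1 with h1 | h1
    · rw [h1]; exact Subgroup.one_mem _
    · rw [h1]; exact Subgroup.mem_zpowers j
  apply good_crs
  refine good_abelian hA ?_ le_top hfg.out
  intro g _ h _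
  rw [MonoidHom.mem_ker, map_mul, map_mul, map_mul, map_inv, map_inv]
  have e : Θ g * Θ h = Θ h * Θ g := mul_comm _ _
  rw [e]
  group

variable {c : Code}

theorem gam_fg (c : Code) : Group.FG (Gam c) := by
  rw [Group.fg_iff]
  exact ⟨Set.range PresentedGroup.of, PresentedGroup.closure_range_of _, Set.finite_range _⟩

/-- the joint kernel of the twelve homomorphisms -/
theorem pet_ker (hV : Valid c) {f : Fin petersen.1 ≃ Fin c.1} {g : Edge petersen ≃ Edge c}
    (h : ∀ (v : Fin petersen.1) (i : Edge petersen), Inc petersen v.1 i ↔ Inc c (f v).1 (g i)) :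
    ∃ φ : Fin 12 → (Gam c →* DihedralGroup 0), (∀ m, φ m (J c) = 1) ∧
      ∀ a, (∀ m, φ m a = 1) → a = 1 ∨ a = J c := by
  have hφ := fun m : Fin 12 => Pet.hom_pm h hV m.2
  choose φ h4 h5 using hφ
  refine ⟨φ, h4, ?_⟩
  intro a ha
  obtain ⟨K, hK⟩ := Pet.main
  obtain ⟨k, w, rfl⟩ := word_form a
  set w' : List ℕ := w.map fun i => (g.symm i).1 with hw'
  have hback : w'.map (Pet.gg g) = w := by
    rw [hw', List.map_map]
    have : (Pet.gg g ∘ fun i => (g.symm i).1) = (id : Edge c → Edge c) := by
      funext i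
      exact Pet.gg_symm i
    rw [this, List.map_id]
  have h3 := hK w' (by
    intro y hy
    rw [hw', List.mem_map] at hy
    obtain ⟨i, _, rfl⟩ := hy
    exact (g.symm i).2) (by
    intro m hm
    have h6 := ha ⟨m, hm⟩
    rw [map_mul, map_pow, h4, one_pow, one_mul] at h6
    rw [← h6]
    unfold Pet.vl vG
    rw [hw', map_list_prod, List.map_map, List.map_map, List.map_map]
    congr 1
    apply List.map_congr_left
    intro i _
    exact (h5 ⟨m, hm⟩ i).symm)
  obtain ⟨k', h7⟩ := Pet.D_GR h h3
  rw [hback] at h7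
  have h8 := D_val h7
  rw [List.map_nil, List.map_nil, vG_nil, mul_one] at h8
  rw [h8]
  rcases JJp (c := c) k with h5 | h5 <;> rcases JJp (c := c) k' with h6 | h6 <;> rw [h5, h6]
  · exact Or.inl (one_mul 1)
  · exact Or.inr (one_mul _)
  · exact Or.inr (mul_one _)
  · exact Or.inl JJ1

theorem petersen_crs (hV : Valid c) (h : IsPetersen c) :
    HasCRS (Gam c) ∧ HasCRS (Gam c ⧸ Subgroup.normalClosure {J c}) := by
  obtain ⟨f, g, h⟩ := h
  obtain ⟨φ, h1, h2⟩ := pet_ker hV h
  have hfg := gam_fg c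
  refine ⟨dihedral_crs hfg (J c) φ h1 h2, ?_⟩
  have hN : ∀ m, Subgroup.normalClosure {J c} ≤ (φ m).ker := by
    intro m
    apply Subgroup.normalClosure_le_normal
    rintro g rfl
    exact h1 m
  refine dihedral_crs (H := Gam c ⧸ Subgroup.normalClosure {J c}) (QuotientGroup.fg _) 1
    (fun m => QuotientGroup.lift _ (φ m) (hN m)) (fun m => map_one _) ?_
  intro a ha
  left
  obtain ⟨a, rfl⟩ := QuotientGroup.mk_surjective a
  rcases h2 a ha with h3 | h3
  · rw [h3]; rfl
  · rw [h3]
    exact (QuotientGroup.eq_one_iff _).2 (Subgroup.subset_normalClosure rfl)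

end Pool.Agent.Helper2CR
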